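import Pool.Agent.V1175.BB.Pot

open MeasureTheory Set Filter Topology
open scoped ENNReal BoundedContinuousFunction

namespace Pool.Agent.V1175.BB

noncomputable section

variable {d : ℕ} {α β : ℝ}

/-! ### Local integrability -/

lemma log_abs_le {t : ℝ} (ht : 0 < t) (ht2 : t < 2) : |Real.log t| ≤ 4 * t ^ (-(1 / 2 : ℝ)) := by
  have h0 : 0 < t ^ (-(1 / 2 : ℝ)) := Real.rpow_pos_of_pos ht _
  rw [abs_le]
  constructor
  · have h1 : Real.log (t ^ (-(1 / 2 : ℝ))) = -(1 / 2) * Real.log t := Real.log_rpow ht _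
    have h2 := Real.log_le_sub_one_of_pos h0
    rw [h1] at h2
    linarith
  · have h1 := Real.log_le_sub_one_of_pos ht
    have h2 : (1 / 2 : ℝ) ≤ t ^ (-(1 / 2 : ℝ)) := by
      have h3 : (2 : ℝ) ^ (-(1 / 2 : ℝ)) ≤ t ^ (-(1 / 2 : ℝ)) :=
        Real.rpow_le_rpow_of_nonpos ht ht2.le (by norm_num)
      have h4 : (2 : ℝ) ^ (-(1 : ℝ)) ≤ (2 : ℝ) ^ (-(1 / 2 : ℝ)) :=
        Real.rpow_le_rpow_of_exponent_le (by norm_num) (by norm_num)
      rw [Real.rpow_neg_one] at h4
      linarith
    linarith

lemma pw_loc (hd : 1 ≤ d) {γ : ℝ} (hγ : -(d : ℝ) < γ) :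
    IntegrableOn (fun x : Esp d => pw γ ‖x‖) (Metric.ball 0 2) volume := by
  have hfr : Module.finrank ℝ (Esp d) = d := finrank_euclideanSpace_fin
  have hmeas : AEStronglyMeasurable (fun x : Esp d => pw γ ‖x‖) volume :=
    ((pw_meas γ).comp measurable_norm).aestronglyMeasurable
  by_cases h : γ = 0
  · refine integrableOn_ball_of_norm_le_rpow (C := 4) (α := 1 / 2) (by rw [hfr]; exact hd) ?_ ?_ hmeas
    · rw [hfr]
      have : (1 : ℝ) ≤ d := by exact_mod_cast hd
      linarith
    · rw [ae_restrict_iff' measurableSet_ball]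
      have hne : ∀ᵐ x : Esp d ∂volume, x ≠ 0 := by
        have : Nontrivial (Esp d) := by
          apply Module.nontrivial_of_finrank_pos (R := ℝ)
          rw [hfr]; omega
        rw [ae_iff]
        simp
      filter_upwards [hne] with x hx hx2
      rw [mem_ball_zero_iff] at hx2
      unfold pw
      rw [if_pos h, Real.norm_eq_abs]
      exact log_abs_le (norm_pos_iff.2 hx) hx2
  · refine integrableOn_ball_of_norm_le_rpow (C := |1 / γ|) (α := -γ) (by rw [hfr]; exact hd) ?_ ?_ hmeas
    · rw [hfr]; linarith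
    · refine ae_of_all _ fun x => ?_
      unfold pw
      rw [if_neg h, neg_neg, Real.norm_eq_abs, div_eq_mul_one_div, abs_mul, mul_comm,
        abs_of_nonneg (Real.rpow_nonneg (norm_nonneg x) γ)]

lemma prod_int {f : Esp d → ℝ} (hf : Measurable f) (hi : IntegrableOn f (Metric.ball 0 2) volume) :
    Integrable (fun p : Esp d × Esp d => f (p.1 - p.2))
      (((volume : Measure (Esp d)).restrict (Metric.ball 0 1)).prod
        ((volume : Measure (Esp d)).restrict (Metric.ball 0 1))) := by
  refine ⟨(hf.comp (measurable_fst.sub measurable_snd)).aestronglyMeasurable, ?_⟩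
  unfold HasFiniteIntegral
  have hm : Measurable fun p : Esp d × Esp d => f (p.1 - p.2) := hf.comp (measurable_fst.sub measurable_snd)
  rw [lintegral_prod _ hm.enorm.aemeasurable]
  have h1 : ∀ x ∈ Metric.ball (0 : Esp d) 1,
      ∫⁻ y in Metric.ball (0 : Esp d) 1, ‖f (x - y)‖ₑ ≤ ∫⁻ z in Metric.ball (0 : Esp d) 2, ‖f z‖ₑ := by
    intro x hx
    rw [← lintegral_indicator measurableSet_ball, ← lintegral_indicator measurableSet_ball]
    rw [← lintegral_sub_left_eq_self (fun z => (Metric.ball (0 : Esp d) 2).indicator (fun z => ‖f z‖ₑ) z) x]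
    refine lintegral_mono fun y => ?_
    by_cases hy : y ∈ Metric.ball (0 : Esp d) 1
    · rw [indicator_of_mem hy, indicator_of_mem]
      rw [mem_ball_zero_iff] at hx hy ⊢
      refine (norm_sub_le x y).trans_lt ?_
      linarith
    · rw [indicator_of_notMem hy]
      exact bot_le
  refine lt_of_le_of_lt (setLIntegral_mono' measurableSet_ball h1) ?_
  rw [setLIntegral_const]
  exact ENNReal.mul_lt_top hi.2 measure_ball_lt_top

/-- the uniform law on the unit ball -/
def unif (d : ℕ) : Measure (Esp d) :=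
  (volume (Metric.ball (0 : Esp d) 1))⁻¹ • (volume : Measure (Esp d)).restrict (Metric.ball 0 1)

lemma vol_ne : volume (Metric.ball (0 : Esp d) 1) ≠ 0 := (Metric.measure_ball_pos _ _ one_pos).ne'
lemma vol_ne_top : volume (Metric.ball (0 : Esp d) 1) ≠ ⊤ := measure_ball_lt_top.ne

instance unif_prob : IsProbabilityMeasure (unif d) := by
  constructor
  unfold unif
  rw [Measure.smul_apply, Measure.restrict_apply_univ, smul_eq_mul]
  exact ENNReal.inv_mul_cancel vol_ne vol_ne_top

lemma unif_prod : (unif d).prod (unif d) =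
    ((volume (Metric.ball (0 : Esp d) 1))⁻¹ * (volume (Metric.ball (0 : Esp d) 1))⁻¹) •
      (((volume : Measure (Esp d)).restrict (Metric.ball 0 1)).prod
        ((volume : Measure (Esp d)).restrict (Metric.ball 0 1))) := by
  unfold unif
  rw [Measure.prod_smul_left, Measure.prod_smul_right, smul_smul]

lemma unif_int {f : Esp d → ℝ} (hf : Measurable f) (hi : IntegrableOn f (Metric.ball 0 2) volume) :
    Integrable (fun p : Esp d × Esp d => f (p.1 - p.2)) ((unif d).prod (unif d)) := by
  rw [unif_prod]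
  refine (prod_int hf hi).smul_measure ?_
  exact ENNReal.mul_ne_top (ENNReal.inv_ne_top.2 vol_ne) (ENNReal.inv_ne_top.2 vol_ne)

lemma unif_diag (hd : 1 ≤ d) : ((unif d).prod (unif d)) {p | p.1 = p.2} = 0 := by
  have hmeas : MeasurableSet {p : Esp d × Esp d | p.1 = p.2} := measurableSet_eq_fun measurable_fst measurable_snd
  rw [unif_prod, Measure.smul_apply, Measure.prod_apply hmeas]
  have : Nontrivial (Esp d) := by
    apply Module.nontrivial_of_finrank_pos (R := ℝ)
    rw [finrank_euclideanSpace_fin]; omega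
  have h1 : ∀ x : Esp d, ((volume : Measure (Esp d)).restrict (Metric.ball 0 1))
      (Prod.mk x ⁻¹' {p : Esp d × Esp d | p.1 = p.2}) = 0 := by
    intro x
    have : (Prod.mk x ⁻¹' {p : Esp d × Esp d | p.1 = p.2}) = {x} := by
      ext y; simp [eq_comm]
    rw [this]
    exact measure_singleton x
  simp

lemma unif_ball : ∀ᵐ p ∂((unif d).prod (unif d)), ‖p.1 - p.2‖ < 2 := by
  rw [unif_prod]
  refine Measure.ae_smul_measure ?_ _
  rw [Measure.prod_restrict, ae_restrict_iff' (measurableSet_ball.prod measurableSet_ball)]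
  refine ae_of_all _ fun p hp => ?_
  have h1 := hp.1
  have h2 := hp.2
  rw [mem_ball_zero_iff] at h1 h2
  refine (norm_sub_le _ _).trans_lt ?_
  linarith

/-! ### A measure of negative energy for `β < 0` -/

lemma scaled_neg (hd : 1 ≤ d) (hα : -(d : ℝ) < α) (h : α < β) (hβ : β < 0) :
    ∃ σ : ProbabilityMeasure (Esp d), (Integrable (fun p : Esp d × Esp d => pot α β (p.1 - p.2))
      ((σ : Measure (Esp d)).prod (σ : Measure (Esp d))) ∧
      ((σ : Measure (Esp d)).prod (σ : Measure (Esp d))) {p | p.1 = p.2} = 0) ∧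
      ∫ p : Esp d × Esp d, pot α β (p.1 - p.2) ∂((σ : Measure (Esp d)).prod (σ : Measure (Esp d))) < 0 := by
  have hα0 : α < 0 := h.trans hβ
  have hIα := unif_int ((pw_meas α).comp measurable_norm) (pw_loc hd hα)
  have hIβ := unif_int ((pw_meas β).comp measurable_norm) (pw_loc hd (hα.trans h))
  simp only [Function.comp_def] at hIα hIβ
  set A : ℝ := ∫ p : Esp d × Esp d, pw α ‖p.1 - p.2‖ ∂((unif d).prod (unif d)) with hA
  set B : ℝ := ∫ p : Esp d × Esp d, pw β ‖p.1 - p.2‖ ∂((unif d).prod (unif d)) with hB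
  have hBneg : B < 0 := by
    have h1 : B ≤ ∫ p : Esp d × Esp d, (2 : ℝ) ^ β / β ∂((unif d).prod (unif d)) := by
      refine integral_mono_ae hIβ (integrable_const _) ?_
      have h2 : ∀ᵐ p ∂((unif d).prod (unif d)), p.1 ≠ p.2 := by
        rw [ae_iff]
        simpa using unif_diag hd
      filter_upwards [h2, unif_ball] with p hp1 hp2
      have h3 : 0 < ‖p.1 - p.2‖ := norm_pos_iff.2 (sub_ne_zero.2 hp1)
      show pw β ‖p.1 - p.2‖ ≤ _
      unfold pw
      rw [if_neg hβ.ne]
      exact div_le_div_of_nonpos_of_le hβ.le (Real.rpow_le_rpow_of_nonpos h3 hp2.le hβ.le)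
    have h2 : (2 : ℝ) ^ β / β < 0 := div_neg_of_pos_of_neg (Real.rpow_pos_of_pos (by norm_num) _) hβ
    rw [integral_const] at h1
    simp only [probReal_univ, one_smul] at h1
    linarith
  obtain ⟨R, hR0, hR⟩ : ∃ R : ℝ, 0 < R ∧ R ^ α * (-A) + R ^ β * B < 0 := by
    have h1 : Tendsto (fun t : ℝ => t ^ (α - β) * (-A) + B) atTop (𝓝 (0 * (-A) + B)) := by
      have := tendsto_rpow_neg_atTop (sub_pos.2 h)
      rw [neg_sub] at this
      exact (this.mul_const _).add_const _
    rw [zero_mul, zero_add] at h1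
    obtain ⟨R, hR1, hR2⟩ := ((h1.eventually (gt_mem_nhds hBneg)).and (eventually_gt_atTop 0)).exists
    refine ⟨R, hR2, ?_⟩
    have h2 : R ^ α = R ^ β * R ^ (α - β) := by rw [← Real.rpow_add hR2]; congr 1; ring
    have h3 : R ^ α * (-A) + R ^ β * B = R ^ β * (R ^ (α - β) * (-A) + B) := by rw [h2]; ring
    rw [h3]
    exact mul_neg_of_pos_of_neg (Real.rpow_pos_of_pos hR2 _) hR1
  have hmap : Measurable fun x : Esp d => R • x := measurable_const_smul R
  have hmap2 : Measurable (Prod.map (fun x : Esp d => R • x) (fun x : Esp d => R • x)) :=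
    hmap.prodMap hmap
  have hpr : IsProbabilityMeasure ((unif d).map fun x => R • x) :=
    Measure.isProbabilityMeasure_map hmap.aemeasurable
  have hpm : ((unif d).map fun x => R • x).prod ((unif d).map fun x => R • x) =
      ((unif d).prod (unif d)).map (Prod.map (fun x : Esp d => R • x) (fun x : Esp d => R • x)) :=
    Measure.map_prod_map _ _ hmap hmap
  have hscale : ∀ p : Esp d × Esp d, pot α β
      ((Prod.map (fun x : Esp d => R • x) (fun x : Esp d => R • x) p).1 -
        (Prod.map (fun x : Esp d => R • x) (fun x : Esp d => R • x) p).2) =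
      -(R ^ α * pw α ‖p.1 - p.2‖) + R ^ β * pw β ‖p.1 - p.2‖ := by
    intro p
    have e1 : ∀ t : ℝ, pw α t = t ^ α / α := fun t => by unfold pw; rw [if_neg hα0.ne]
    have e2 : ∀ t : ℝ, pw β t = t ^ β / β := fun t => by unfold pw; rw [if_neg hβ.ne]
    unfold pot
    simp only [e1, e2, Prod.map_fst, Prod.map_snd]
    rw [← smul_sub, norm_smul, Real.norm_eq_abs, abs_of_pos hR0,
      Real.mul_rpow hR0.le (norm_nonneg _), Real.mul_rpow hR0.le (norm_nonneg _)]
    ring
  have hpotm : Measurable fun p : Esp d × Esp d => pot α β (p.1 - p.2) :=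
    pot_meas.comp (measurable_fst.sub measurable_snd)
  refine ⟨⟨(unif d).map fun x => R • x, hpr⟩, ⟨?_, ?_⟩, ?_⟩
  · show Integrable _ (((unif d).map fun x => R • x).prod ((unif d).map fun x => R • x))
    rw [hpm, integrable_map_measure hpotm.aestronglyMeasurable hmap2.aemeasurable]
    refine Integrable.congr ((hIα.const_mul (R ^ α)).neg.add (hIβ.const_mul (R ^ β))) ?_
    exact ae_of_all _ fun p => (hscale p).symm
  · show (((unif d).map fun x => R • x).prod ((unif d).map fun x => R • x)) _ = 0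
    rw [hpm, Measure.map_apply hmap2 (measurableSet_eq_fun measurable_fst measurable_snd)]
    refine measure_mono_null ?_ (unif_diag hd)
    intro p hp
    have : R • p.1 = R • p.2 := hp
    exact smul_right_injective _ hR0.ne' this
  · show ∫ p, _ ∂(((unif d).map fun x => R • x).prod ((unif d).map fun x => R • x)) < 0
    rw [hpm, integral_map hmap2.aemeasurable hpotm.aestronglyMeasurable]
    simp only [hscale]
    have e1 : Integrable (fun p : Esp d × Esp d => -(R ^ α * pw α ‖p.1 - p.2‖)) ((unif d).prod (unif d)) :=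
      (hIα.const_mul (R ^ α)).neg
    rw [integral_add e1 (hIβ.const_mul (R ^ β)), integral_neg,
      integral_const_mul, integral_const_mul]
    rw [← hA, ← hB]
    linarith

/-- a measure of finite energy -/
lemma unif_fin (hd : 1 ≤ d) (hα : -(d : ℝ) < α) (h : α < β) :
    Integrable (fun p : Esp d × Esp d => pot α β (p.1 - p.2)) ((unif d).prod (unif d)) := by
  refine unif_int pot_meas ?_
  exact (pw_loc hd hα).neg.add (pw_loc hd (hα.trans h))

end

end Pool.Agent.V1175.BB
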