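import Pool.Agent.V1175.BB.Lim
import Pool.Agent.V1175.BB.Unif

open MeasureTheory Set Filter Topology
open scoped ENNReal BoundedContinuousFunction

namespace Pool.Agent.V1175.BB

noncomputable section

theorem main (d : ℕ) (hd : 1 ≤ d) (α β : ℝ) (hα : -(d : ℝ) < α) (h : α < β)
    (n : ℕ → ℕ) (hn : Tendsto n atTop atTop) (hn2 : ∀ k, 2 ≤ n k)
    (X : ∀ k, Fin (n k) → Esp d) (hX : ∀ k, IsDiscreteMin α β (X k)) :
    ∃ a : ℕ → Esp d, ∀ φ : ℕ → ℕ, StrictMono φ → ∃ ψ : ℕ → ℕ, StrictMono ψ ∧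
      ∃ ρ : ProbabilityMeasure (Esp d), IsContMin α β ρ ∧
        ∀ f : Esp d →ᵇ ℝ, Tendsto (fun k => (1 / (n (φ (ψ k)) : ℝ)) *
          ∑ i, f (X (φ (ψ k)) i - a (φ (ψ k)))) atTop (𝓝 (∫ x, f x ∂(ρ : Measure (Esp d)))) := by
  set W : Esp d → ℝ := pot α β with hW
  set c : ℝ := |1 / β - 1 / α| + 1 with hcdef
  have hc0 : 0 < c := by positivity
  have hc : ∀ x, -c ≤ W x := pot_ge h
  have hup : ∀ σ : ProbabilityMeasure (Esp d), Fin0 W (α ≤ 0) (σ : Measure (Esp d)) →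
      ∀ k : ℕ, mm W (α ≤ 0) (k + 2) ≤ En W (σ : Measure (Esp d)) :=
    fun σ hσ k => mm_le_En hc _ hσ _ (by omega)
  have hbdd : BddAbove (Set.range fun k : ℕ => mm W (α ≤ 0) (k + 2)) := by
    refine ⟨En W (unif d), ?_⟩
    rintro _ ⟨k, rfl⟩
    exact hup ⟨unif d, unif_prob⟩ ⟨unif_fin hd hα h, fun _ => unif_diag hd⟩ k
  set M : ℝ := ⨆ k : ℕ, mm W (α ≤ 0) (k + 2) with hM
  have hMle : ∀ σ : ProbabilityMeasure (Esp d), Fin0 W (α ≤ 0) (σ : Measure (Esp d)) →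
      M ≤ En W (σ : Measure (Esp d)) := fun σ hσ => ciSup_le (hup σ hσ)
  have hPS : ∀ k, PS W Finset.univ (X k) ≤ n k * (n k - 1) * M := by
    intro k
    have h2 : (2 : ℝ) ≤ n k := by exact_mod_cast hn2 k
    have h3 : 0 < (n k : ℝ) * (n k - 1) := by nlinarith
    have h4 : PS W Finset.univ (X k) / (n k * (n k - 1)) ≤ mm W (α ≤ 0) (n k) := by
      obtain ⟨Y0, hY0⟩ := adm_nonempty hd (n k)
      refine le_csInf ⟨_, Y0, fun _ => hY0, rfl⟩ ?_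
      rintro r ⟨Y, hY, rfl⟩
      refine div_le_div_of_nonneg_right ?_ h3.le
      have h5 := (hX k).2 Y hY
      have e1 : discE α β (X k) = 1 / 2 * PS W Finset.univ (X k) := rfl
      have e2 : discE α β Y = 1 / 2 * PS W Finset.univ Y := rfl
      rw [e1, e2] at h5
      linarith
    have h5 : mm W (α ≤ 0) (n k) ≤ M := by
      have h6 := le_ciSup hbdd (n k - 2)
      have h7 : n k - 2 + 2 = n k := Nat.sub_add_cancel (hn2 k)
      simp only [h7] at h6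
      exact h6
    have h6 := h4.trans h5
    rw [div_le_iff₀ h3] at h6
    linarith
  have H : ∀ ε : ℝ, 0 < ε → ε ≤ 1 / 2 → ∃ R : ℝ, 0 ≤ R ∧ ∃ N0 : ℕ, ∀ N : ℕ, N0 ≤ N →
      ∀ X : Fin N → Esp d, ((α ≤ 0) → Function.Injective X) →
      PS W Finset.univ X ≤ N * (N - 1) * M → ∃ j, (1 - ε) * N ≤ cnt X j R := by
    intro ε hε hε2
    rcases le_or_gt 0 β with hβ | hβ
    · obtain ⟨R, hR, hR'⟩ := tightA (W := W) hc0.le hc (pot_top h hβ) M ε hε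
      exact ⟨R, hR, 2, fun N hN X _ hXM => hR' N hN X hXM⟩
    · have hMneg : M < 0 := by
        obtain ⟨σ, ⟨hσ1, hσ2⟩, hσ3⟩ := scaled_neg hd hα h hβ
        exact lt_of_le_of_lt (hMle σ ⟨hσ1, fun _ => hσ2⟩) hσ3
      refine tightB (sg := α ≤ 0) hc0 hc (pot_neg h hβ) hMneg ?_ hε hε2
      intro τ hτ
      obtain ⟨k, hk⟩ := exists_lt_of_lt_ciSup (show M - τ < ⨆ k : ℕ, mm W (α ≤ 0) (k + 2) by linarith)
      exact ⟨k + 2, by omega, fun l hl => hk.le.trans (mm_mono' hc hd (by omega) hl)⟩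
  obtain ⟨a, ha⟩ := abs_main (sg := α ≤ 0) hc0.le hc pot_meas (fun x hx => pot_cont_ne hx)
    (fun hs => pot_sing hs h) (fun hs => pot_cont_zero (not_le.1 hs) h) H n hn hn2 X
    (fun k => (hX k).1) hPS
  refine ⟨a, fun φ hφ => ?_⟩
  obtain ⟨ψ, hψ, ρ, hF, hE, hconv⟩ := ha φ hφ
  refine ⟨ψ, hψ, ρ, ⟨hF, fun σ hσ => ?_⟩, hconv⟩
  have h1 : En W (ρ : Measure (Esp d)) ≤ En W (σ : Measure (Esp d)) := hE.trans (hMle σ hσ)
  have e1 : energy α β (ρ : Measure (Esp d)) = 1 / 2 * En W (ρ : Measure (Esp d)) := rfl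
  have e2 : energy α β (σ : Measure (Esp d)) = 1 / 2 * En W (σ : Measure (Esp d)) := rfl
  rw [e1, e2]
  linarith

end

end Pool.Agent.V1175.BB
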