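import Pool.Agent.V1175.BB.Defs

open MeasureTheory Set Filter Topology
open scoped ENNReal BoundedContinuousFunction

namespace Pool.Agent.V1175.BB

noncomputable section

/-- the sum over ordered pairs -/
def PS {d : ℕ} (W : Esp d → ℝ) {ι : Type*} [DecidableEq ι] (s : Finset ι) (X : ι → Esp d) : ℝ :=
  ∑ i ∈ s, ∑ j ∈ s, if i = j then 0 else W (X i - X j)

variable {d : ℕ} (W : Esp d → ℝ) (sg : Prop)

/-- the least average pair energy of `k` points -/
def mm (k : ℕ) : ℝ :=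
  sInf {r | ∃ Y : Fin k → Esp d, (sg → Function.Injective Y) ∧ r = PS W Finset.univ Y / (k * (k - 1))}

variable {W sg}

lemma PS_ge {c : ℝ} (hc : ∀ x, -c ≤ W x) {ι : Type*} [DecidableEq ι] (s : Finset ι)
    (X : ι → Esp d) : -c * (s.card * (s.card - 1)) ≤ PS W s X := by
  have h1 : ∀ i ∈ s, -c * (s.card - 1) ≤ ∑ j ∈ s, if i = j then 0 else W (X i - X j) := by
    intro i hi
    rw [← Finset.add_sum_erase s _ hi, if_pos rfl, zero_add]
    have h2 : ∀ j ∈ s.erase i, -c ≤ if i = j then 0 else W (X i - X j) := by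
      intro j hj
      rw [if_neg (Finset.ne_of_mem_erase hj).symm]
      exact hc _
    have h3 := Finset.card_nsmul_le_sum _ _ _ h2
    rw [Finset.card_erase_of_mem hi, nsmul_eq_mul] at h3
    have h4 : 1 ≤ s.card := Finset.card_pos.2 ⟨i, hi⟩
    push_cast [h4] at h3
    linarith
  have h2 := Finset.card_nsmul_le_sum _ _ _ h1
  rw [nsmul_eq_mul] at h2
  unfold PS
  linarith

lemma mm_bdd {c : ℝ} (hc : ∀ x, -c ≤ W x) (k : ℕ) (hk : 2 ≤ k) :
    BddBelow {r | ∃ Y : Fin k → Esp d, (sg → Function.Injective Y) ∧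
      r = PS W Finset.univ Y / (k * (k - 1))} := by
  refine ⟨-c, ?_⟩
  rintro r ⟨Y, -, rfl⟩
  have h1 := PS_ge hc Finset.univ Y
  rw [Finset.card_univ, Fintype.card_fin] at h1
  have h2 : (2 : ℝ) ≤ k := by exact_mod_cast hk
  have h3 : 0 < (k : ℝ) * (k - 1) := by nlinarith
  rw [le_div_iff₀ h3]
  exact h1

lemma mm_le_PS {c : ℝ} (hc : ∀ x, -c ≤ W x) {ι : Type*} [DecidableEq ι] (s : Finset ι)
    (X : ι → Esp d) (hX : sg → Set.InjOn X s) (hs : 2 ≤ s.card) :
    mm W sg s.card * (s.card * (s.card - 1)) ≤ PS W s X := by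
  have h2 : (2 : ℝ) ≤ s.card := by exact_mod_cast hs
  have h3 : 0 < (s.card : ℝ) * (s.card - 1) := by nlinarith
  rw [← le_div_iff₀ h3]
  refine csInf_le (mm_bdd hc _ hs) ⟨fun i => X (s.equivFin.symm i), ?_, ?_⟩
  · intro h i j hij
    have := hX h (s.equivFin.symm i).2 (s.equivFin.symm j).2 hij
    exact s.equivFin.symm.injective (Subtype.ext this)
  · congr 1
    unfold PS
    rw [← Finset.sum_coe_sort, ← Equiv.sum_comp s.equivFin.symm]
    refine Finset.sum_congr rfl fun i _ => ?_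
    rw [← Finset.sum_coe_sort, ← Equiv.sum_comp s.equivFin.symm]
    refine Finset.sum_congr rfl fun j _ => ?_
    have h4 : ((s.equivFin.symm i : ι) = s.equivFin.symm j) ↔ i = j := by
      rw [Subtype.coe_inj, s.equivFin.symm.injective.eq_iff]
    by_cases h : i = j
    · rw [if_pos h, if_pos (h4.2 h)]
    · rw [if_neg h, if_neg (mt h4.1 h)]

lemma adm_nonempty (hd : 1 ≤ d) (k : ℕ) : ∃ Y : Fin k → Esp d, Function.Injective Y := by
  have : Nonempty (Fin d) := ⟨⟨0, hd⟩⟩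
  have : Infinite (Esp d) := by
    have : Nontrivial (Esp d) := inferInstance
    exact Module.Free.infinite ℝ (Esp d)
  exact ⟨fun i => Infinite.natEmbedding (Esp d) i, fun i j h => Fin.ext ((Infinite.natEmbedding _).injective h)⟩

lemma PS_erase (k : ℕ) (Y : Fin (k + 1) → Esp d) :
    ∑ i, PS W (Finset.univ.erase i) Y = (k - 1) * PS W Finset.univ Y := by
  have h1 : ∀ i : Fin (k + 1), PS W (Finset.univ.erase i) Y =
      ∑ a, ∑ b, if (i ≠ a ∧ i ≠ b) then (if a = b then 0 else W (Y a - Y b)) else 0 := by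
    intro i
    unfold PS
    rw [Finset.sum_erase_eq_sub (Finset.mem_univ i), ← Finset.add_sum_erase _ _ (Finset.mem_univ i),
      ← Finset.add_sum_erase _ (fun a => ∑ b, if (i ≠ a ∧ i ≠ b) then (if a = b then 0 else W (Y a - Y b)) else 0)
      (Finset.mem_univ i)]
    simp only [ne_eq, not_true, false_and, if_false, Finset.sum_const_zero, zero_add, add_sub_cancel_left]
    refine Finset.sum_congr rfl fun a ha => ?_
    have ha' : i ≠ a := (Finset.ne_of_mem_erase ha).symm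
    rw [← Finset.add_sum_erase _ (fun b => if (¬ i = a ∧ ¬ i = b) then (if a = b then 0 else W (Y a - Y b)) else 0)
      (Finset.mem_univ i)]
    simp only [not_true, and_false, if_false, zero_add]
    refine Finset.sum_congr rfl fun b hb => ?_
    have hb' : i ≠ b := (Finset.ne_of_mem_erase hb).symm
    rw [if_pos (show ¬ i = a ∧ ¬ i = b from ⟨ha', hb'⟩)]
  simp only [h1]
  rw [Finset.sum_comm]
  unfold PS
  rw [Finset.mul_sum]
  refine Finset.sum_congr rfl fun a _ => ?_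
  rw [Finset.sum_comm, Finset.mul_sum]
  refine Finset.sum_congr rfl fun b _ => ?_
  by_cases hab : a = b
  · subst hab
    simp
  · rw [if_neg hab]
    rw [← Finset.sum_filter, Finset.sum_const, nsmul_eq_mul]
    congr 1
    have : (Finset.univ.filter fun i : Fin (k + 1) => i ≠ a ∧ i ≠ b) = Finset.univ \ {a, b} := by
      ext i; simp
    rw [this, Finset.card_sdiff_of_subset (Finset.subset_univ _), Finset.card_pair hab,
      Finset.card_univ, Fintype.card_fin]
    have hk : 2 ≤ k + 1 := by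
      have := Fintype.one_lt_card_iff.2 ⟨a, b, hab⟩
      rw [Fintype.card_fin] at this
      omega
    rw [Nat.cast_sub hk]
    push_cast
    ring

lemma mm_mono {c : ℝ} (hc : ∀ x, -c ≤ W x) (hd : 1 ≤ d) (k : ℕ) (hk : 2 ≤ k) :
    mm W sg k ≤ mm W sg (k + 1) := by
  obtain ⟨Y0, hY0⟩ := adm_nonempty hd (k + 1)
  refine le_csInf ⟨_, Y0, fun _ => hY0, rfl⟩ ?_
  rintro r ⟨Y, hY, rfl⟩
  have h2 : (2 : ℝ) ≤ k := by exact_mod_cast hk
  have h3 : 0 < ((k + 1 : ℕ) : ℝ) * ((k + 1 : ℕ) - 1) := by push_cast; nlinarith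
  rw [le_div_iff₀ h3]
  have h4 : ∀ i : Fin (k + 1), mm W sg k * (k * (k - 1)) ≤ PS W (Finset.univ.erase i) Y := by
    intro i
    have hcard : (Finset.univ.erase i).card = k := by
      rw [Finset.card_erase_of_mem (Finset.mem_univ i), Finset.card_univ, Fintype.card_fin]; rfl
    have := mm_le_PS (sg := sg) hc (Finset.univ.erase i) Y (fun h => (hY h).injOn) (by rw [hcard]; exact hk)
    rwa [hcard] at this
  have h5 := Finset.sum_le_sum fun i (_ : i ∈ Finset.univ) => h4 i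
  rw [PS_erase, Finset.sum_const, Finset.card_univ, Fintype.card_fin, nsmul_eq_mul] at h5
  push_cast at h5 ⊢
  have h6 : (0 : ℝ) < k - 1 := by linarith
  have h7 : (k - 1 : ℝ) * (mm W sg k * ((k + 1) * (k + 1 - 1))) ≤ (k - 1) * PS W Finset.univ Y := by
    calc _ = (k + 1 : ℝ) * (mm W sg k * (k * (k - 1))) := by ring
      _ ≤ _ := h5
  exact le_of_mul_le_mul_left h7 h6

lemma mm_mono' {c : ℝ} (hc : ∀ x, -c ≤ W x) (hd : 1 ≤ d) {k l : ℕ} (hk : 2 ≤ k) (hkl : k ≤ l) :
    mm W sg k ≤ mm W sg l := by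
  induction l, hkl using Nat.le_induction with
  | base => exact le_rfl
  | succ l hl ih => exact ih.trans (mm_mono hc hd l (hk.trans hl))


/-! ### The upper bound by independent points -/

/-- finite energy -/
def Fin0 (W : Esp d → ℝ) (sg : Prop) (ρ : Measure (Esp d)) : Prop :=
  Integrable (fun p : Esp d × Esp d => W (p.1 - p.2)) (ρ.prod ρ) ∧
    (sg → (ρ.prod ρ) {p | p.1 = p.2} = 0)

/-- the energy -/
def En (W : Esp d → ℝ) (ρ : Measure (Esp d)) : ℝ := ∫ p, W (p.1 - p.2) ∂(ρ.prod ρ)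

lemma pair_law (σ : Measure (Esp d)) [IsProbabilityMeasure σ] {k : ℕ} {i j : Fin k} (hij : i ≠ j) :
    (Measure.pi fun _ : Fin k => σ).map (fun Y => (Y i, Y j)) = σ.prod σ := by
  have h1 := (ProbabilityTheory.iIndepFun_pi (μ := fun _ : Fin k => σ) (X := fun _ x => x)
    (fun _ => aemeasurable_id)).indepFun hij
  have h2 := h1.map_prod_eq_prod_map_map (measurable_pi_apply i).aemeasurable
    (measurable_pi_apply j).aemeasurable
  rw [h2]
  have h3 : ∀ i : Fin k, (Measure.pi fun _ : Fin k => σ).map (fun Y => Y i) = σ := fun i =>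
    (measurePreserving_eval (fun _ : Fin k => σ) i).map_eq
  rw [h3, h3]

lemma iid (σ : Measure (Esp d)) [IsProbabilityMeasure σ] (hσ : Fin0 W sg σ) (k : ℕ) :
    ∃ Y : Fin k → Esp d, (sg → Function.Injective Y) ∧
      PS W Finset.univ Y ≤ k * (k - 1) * En W σ := by
  classical
  set P : Measure (Fin k → Esp d) := Measure.pi fun _ : Fin k => σ with hP
  have hm : ∀ i j : Fin k, AEMeasurable (fun Y : Fin k → Esp d => (Y i, Y j)) P := fun i j =>
    ((measurable_pi_apply i).prodMk (measurable_pi_apply j)).aemeasurable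
  have hint : ∀ i j : Fin k, i ≠ j → Integrable (fun Y : Fin k → Esp d => W (Y i - Y j)) P := by
    intro i j hij
    have h1 := hσ.1
    rw [← pair_law σ hij] at h1
    exact (integrable_map_measure h1.aestronglyMeasurable (hm i j)).1 h1
  have hval : ∀ i j : Fin k, i ≠ j → ∫ Y, W (Y i - Y j) ∂P = En W σ := by
    intro i j hij
    have h1 := hσ.1.aestronglyMeasurable
    rw [← pair_law σ hij] at h1
    unfold En
    rw [← pair_law σ hij, integral_map (hm i j) h1]
  have hterm : ∀ i j : Fin k, Integrable (fun Y : Fin k → Esp d => if i = j then 0 else W (Y i - Y j)) P := by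
    intro i j
    by_cases h : i = j
    · simp [h]
    · simpa [h] using hint i j h
  have hI : Integrable (fun Y : Fin k → Esp d => PS W Finset.univ Y) P :=
    integrable_finsetSum _ fun i _ => integrable_finsetSum _ fun j _ => hterm i j
  have hE : ∫ Y, PS W Finset.univ Y ∂P = k * (k - 1) * En W σ := by
    unfold PS
    rw [integral_finsetSum _ fun i _ => integrable_finsetSum _ fun j _ => hterm i j]
    have h1 : ∀ i : Fin k, ∫ Y, (∑ j : Fin k, if i = j then 0 else W (Y i - Y j)) ∂P = (k - 1) * En W σ := by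
      intro i
      rw [integral_finsetSum _ fun j _ => hterm i j, ← Finset.add_sum_erase _ _ (Finset.mem_univ i)]
      simp only [if_true, integral_zero, zero_add]
      have h2 : ∀ j ∈ Finset.univ.erase i, ∫ Y, (if i = j then 0 else W (Y i - Y j)) ∂P = En W σ := by
        intro j hj
        have hij : i ≠ j := (Finset.ne_of_mem_erase hj).symm
        simp only [if_neg hij]
        exact hval i j hij
      rw [Finset.sum_congr rfl h2, Finset.sum_const, Finset.card_erase_of_mem (Finset.mem_univ i),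
        Finset.card_univ, Fintype.card_fin, nsmul_eq_mul, Nat.cast_sub (by have := i.2; omega)]
      push_cast; ring
    simp only [h1]
    rw [Finset.sum_const, Finset.card_univ, Fintype.card_fin, nsmul_eq_mul]
    ring
  set Bad : Set (Fin k → Esp d) := {Y | sg ∧ ¬ Function.Injective Y} with hBad
  have hnull : P Bad = 0 := by
    by_cases hs : sg
    · have h1 : Bad ⊆ ⋃ i : Fin k, ⋃ j : Fin k, {Y | i ≠ j ∧ Y i = Y j} := by
        rintro Y ⟨-, h⟩
        simp only [Function.Injective, not_forall] at h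
        obtain ⟨i, j, h2, h3⟩ := h
        exact Set.mem_iUnion.2 ⟨i, Set.mem_iUnion.2 ⟨j, h3, h2⟩⟩
      refine measure_mono_null h1 (measure_iUnion_null fun i => measure_iUnion_null fun j => ?_)
      by_cases hij : i = j
      · simp [hij]
      · have h2 := hσ.2 hs
        rw [← pair_law σ hij, Measure.map_apply_of_aemeasurable (hm i j)
          (measurableSet_eq_fun measurable_fst measurable_snd)] at h2
        refine measure_mono_null ?_ h2
        rintro Y ⟨-, h⟩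
        exact h
    · simp [hBad, hs]
  obtain ⟨Y, hY, hle⟩ := exists_notMem_null_le_integral hI hnull
  refine ⟨Y, fun h => ?_, hE ▸ hle⟩
  by_contra hcon
  exact hY ⟨h, hcon⟩

lemma mm_le_En {c : ℝ} (hc : ∀ x, -c ≤ W x) (σ : Measure (Esp d)) [IsProbabilityMeasure σ]
    (hσ : Fin0 W sg σ) (k : ℕ) (hk : 2 ≤ k) : mm W sg k ≤ En W σ := by
  obtain ⟨Y, hY, hle⟩ := iid σ hσ k
  have h2 : (2 : ℝ) ≤ k := by exact_mod_cast hk
  have h3 : 0 < (k : ℝ) * (k - 1) := by nlinarith
  refine (csInf_le (mm_bdd hc _ hk) ⟨Y, hY, rfl⟩).trans ?_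
  rw [div_le_iff₀ h3]
  linarith


/-! ### Concentration of the points -/

/-- number of points within distance `r` of the `j`-th one -/
def cnt {N : ℕ} (X : Fin N → Esp d) (j : Fin N) (r : ℝ) : ℕ :=
  (Finset.univ.filter fun i => ‖X i - X j‖ ≤ r).card

lemma cnt_le {N : ℕ} (X : Fin N → Esp d) (j : Fin N) (r : ℝ) : cnt X j r ≤ N := by
  refine (Finset.card_le_univ _).trans ?_
  rw [Fintype.card_fin]

/-- lower bound for a row sum -/
lemma row_ge {c T r : ℝ} (hc0 : 0 ≤ c) (hc : ∀ x, -c ≤ W x) (hr : 0 ≤ r)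
    (hT : ∀ x : Esp d, r < ‖x‖ → T ≤ W x) {N : ℕ} (X : Fin N → Esp d) (j : Fin N) :
    T * (N - cnt X j r) - c * cnt X j r ≤ ∑ i, if j = i then 0 else W (X j - X i) := by
  have h1 : ∀ i : Fin N, (if ‖X i - X j‖ ≤ r then -c else T) ≤ if j = i then 0 else W (X j - X i) := by
    intro i
    by_cases hij : j = i
    · subst hij
      rw [if_pos rfl, if_pos (by simpa using hr)]
      linarith
    · rw [if_neg hij]
      split_ifs with h
      · exact hc _
      · refine hT _ ?_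
        rw [norm_sub_rev]
        exact not_le.1 h
  refine le_trans (le_of_eq ?_) (Finset.sum_le_sum fun i _ => h1 i)
  rw [Finset.sum_ite, Finset.sum_const, Finset.sum_const, nsmul_eq_mul, nsmul_eq_mul]
  have h2 := Finset.card_filter_add_card_filter_not (s := (Finset.univ : Finset (Fin N)))
    (fun i => ‖X i - X j‖ ≤ r)
  rw [Finset.card_univ, Fintype.card_fin] at h2
  have h3 : ((Finset.univ.filter fun i => ¬ ‖X i - X j‖ ≤ r).card : ℝ) = N - cnt X j r := by
    have h4 : (cnt X j r : ℝ) + ((Finset.univ.filter fun i => ¬ ‖X i - X j‖ ≤ r).card : ℝ) = N := by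
      exact_mod_cast h2
    linarith
  rw [h3]
  unfold cnt
  ring

lemma tightA {c : ℝ} (hc0 : 0 ≤ c) (hc : ∀ x, -c ≤ W x)
    (hW : ∀ T : ℝ, ∃ R : ℝ, 0 ≤ R ∧ ∀ x : Esp d, R < ‖x‖ → T ≤ W x) (M ε : ℝ) (hε : 0 < ε) :
    ∃ R : ℝ, 0 ≤ R ∧ ∀ N : ℕ, 2 ≤ N → ∀ X : Fin N → Esp d, PS W Finset.univ X ≤ N * (N - 1) * M →
      ∃ j, (1 - ε) * N ≤ cnt X j R := by
  obtain ⟨R, hR0, hR⟩ := hW ((|M| + c + 1) / ε)
  refine ⟨R, hR0, fun N hN X hX => ?_⟩
  by_contra hcon
  push Not at hcon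
  set T := (|M| + c + 1) / ε with hTdef
  have hTε : ε * T = |M| + c + 1 := by rw [hTdef]; field_simp
  have hT0 : 0 < T := by rw [hTdef]; positivity
  have hN2 : (2 : ℝ) ≤ N := by exact_mod_cast hN
  have h1 : ∀ j : Fin N, (ε * T - c) * N ≤ ∑ i, if j = i then 0 else W (X j - X i) := by
    intro j
    refine le_trans ?_ (row_ge hc0 hc hR0 hR X j)
    have h2 := hcon j
    have h3 : (cnt X j R : ℝ) ≤ N := by exact_mod_cast cnt_le X j R
    have h4 : ε * N ≤ N - cnt X j R := by linarith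
    have h5 := mul_le_mul_of_nonneg_left h4 hT0.le
    have h6 := mul_le_mul_of_nonneg_left h3 hc0
    linarith
  have h2 := Finset.card_nsmul_le_sum Finset.univ _ _ fun j _ => h1 j
  rw [Finset.card_univ, Fintype.card_fin, nsmul_eq_mul] at h2
  have h3 : (N : ℝ) * ((ε * T - c) * N) ≤ N * (N - 1) * M := h2.trans hX
  rw [hTε] at h3
  have h4 : (N : ℝ) * (N - 1) * M ≤ N * N * |M| := by
    have h5 : (N : ℝ) * (N - 1) * M ≤ N * (N - 1) * |M| :=
      mul_le_mul_of_nonneg_left (le_abs_self M) (by nlinarith)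
    have h6 : (N : ℝ) * (N - 1) * |M| ≤ N * N * |M| :=
      mul_le_mul_of_nonneg_right (by nlinarith) (abs_nonneg M)
    linarith
  nlinarith

lemma PS_ge' {c τ M : ℝ} (hc0 : 0 ≤ c) (hc : ∀ x, -c ≤ W x) (hM : M < 0) (hτ : 0 ≤ τ) {k0 : ℕ}
    (hk0 : 2 ≤ k0) (hlim : ∀ k, k0 ≤ k → M - τ ≤ mm W sg k) {ι : Type*} [DecidableEq ι]
    (s : Finset ι) (X : ι → Esp d) (hX : sg → Set.InjOn X s) :
    (s.card : ℝ) ^ 2 * (M - τ) - c * k0 ^ 2 ≤ PS W s X := by
  rcases le_or_gt k0 s.card with h | h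
  · have h1 := mm_le_PS hc s X hX (hk0.trans h)
    have h2 := hlim _ h
    have h3 : (2 : ℝ) ≤ s.card := by exact_mod_cast hk0.trans h
    have h4 : (M - τ) * (s.card * (s.card - 1)) ≤ mm W sg s.card * (s.card * (s.card - 1)) :=
      mul_le_mul_of_nonneg_right h2 (by nlinarith)
    have h5 : (s.card : ℝ) ^ 2 * (M - τ) ≤ (M - τ) * (s.card * (s.card - 1)) := by nlinarith
    have h6 : 0 ≤ c * (k0 : ℝ) ^ 2 := by positivity
    linarith
  · have h1 := PS_ge hc s X
    have h2 : (s.card : ℝ) ≤ k0 := by exact_mod_cast h.le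
    have h3 : (0 : ℝ) ≤ s.card := Nat.cast_nonneg _
    have h4 : (s.card : ℝ) * (s.card - 1) ≤ k0 ^ 2 := by nlinarith
    have h5 := mul_le_mul_of_nonneg_left h4 hc0
    have h6 : (s.card : ℝ) ^ 2 * (M - τ) ≤ 0 := by
      have : 0 ≤ (s.card : ℝ) ^ 2 := by positivity
      nlinarith
    linarith

lemma split_ge {c δ L r : ℝ} (hL0 : 0 ≤ L) (hc0 : 0 ≤ c) (hc : ∀ x, -c ≤ W x) (hδ : 0 ≤ δ)
    (hL : ∀ x : Esp d, L < ‖x‖ → -δ ≤ W x) {N : ℕ} (X : Fin N → Esp d) (j : Fin N) :
    PS W (Finset.univ.filter fun i => ‖X i - X j‖ ≤ r) X +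
      PS W (Finset.univ.filter fun i => r + L < ‖X i - X j‖) X - δ * (N : ℝ) ^ 2 -
      2 * c * N * (Finset.univ.filter fun i => ¬ ‖X i - X j‖ ≤ r ∧ ¬ r + L < ‖X i - X j‖).card ≤
      PS W Finset.univ X := by
  set I := Finset.univ.filter fun i => ‖X i - X j‖ ≤ r with hI
  set O := Finset.univ.filter fun i => r + L < ‖X i - X j‖ with hO
  set A := Finset.univ.filter fun i => ¬ ‖X i - X j‖ ≤ r ∧ ¬ r + L < ‖X i - X j‖ with hA
  set f : Fin N → Fin N → ℝ := fun a b => if a = b then 0 else W (X a - X b) with hf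
  have hfc : ∀ a b, -c ≤ f a b := by
    intro a b
    simp only [hf]
    split_ifs
    · linarith
    · exact hc _
  have hPSI : ∀ s : Finset (Fin N), PS W s X = ∑ a, ∑ b, if a ∈ s ∧ b ∈ s then f a b else 0 := by
    intro s
    unfold PS
    rw [← Finset.sum_subset (Finset.subset_univ s)]
    · refine Finset.sum_congr rfl fun a ha => ?_
      rw [← Finset.sum_subset (Finset.subset_univ s)]
      · refine Finset.sum_congr rfl fun b hb => ?_
        exact (if_pos (show a ∈ s ∧ b ∈ s from ⟨ha, hb⟩)).symm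
      · intro b _ hb
        rw [if_neg fun h => hb h.2]
    · intro a _ ha
      refine Finset.sum_eq_zero fun b _ => ?_
      rw [if_neg fun h => ha h.1]
  have key : ∀ a b, (if a ∈ I ∧ b ∈ I then f a b else 0) + (if a ∈ O ∧ b ∈ O then f a b else 0) - δ -
      c * ((if a ∈ A then 1 else 0) + (if b ∈ A then 1 else 0)) ≤ f a b := by
    intro a b
    have hf1 := hfc a b
    have ma : ∀ i, i ∈ I ↔ ‖X i - X j‖ ≤ r := fun i => by simp [hI]
    have mo : ∀ i, i ∈ O ↔ r + L < ‖X i - X j‖ := fun i => by simp [hO]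
    have mA : ∀ i, i ∈ A ↔ ¬ i ∈ I ∧ ¬ i ∈ O := fun i => by rw [ma, mo]; simp [hA]
    have far : ∀ a b, a ∈ I → b ∈ O → L < ‖X a - X b‖ := by
      intro a b ha hb
      rw [ma] at ha
      rw [mo] at hb
      have h1 : ‖X b - X j‖ ≤ ‖X a - X b‖ + ‖X a - X j‖ := by
        have : X b - X j = -(X a - X b) + (X a - X j) := by abel
        rw [this]
        refine (norm_add_le _ _).trans ?_
        rw [norm_neg]
      linarith
    by_cases haA : a ∈ A
    · have h1 := (mA a).1 haA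
      rw [if_neg fun h => h1.1 h.1, if_neg fun h => h1.2 h.1, if_pos haA]
      split_ifs <;> nlinarith
    by_cases hbA : b ∈ A
    · have h1 := (mA b).1 hbA
      rw [if_neg fun h => h1.1 h.2, if_neg fun h => h1.2 h.2, if_neg haA, if_pos hbA]
      nlinarith
    rw [if_neg haA, if_neg hbA]
    have ha : a ∈ I ∨ a ∈ O := by
      by_contra h
      push Not at h
      exact haA ((mA a).2 h)
    have hb : b ∈ I ∨ b ∈ O := by
      by_contra h
      push Not at h
      exact hbA ((mA b).2 h)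
    have dis : ∀ i, i ∈ I → ¬ i ∈ O := by
      intro i h1 h2
      rw [ma] at h1
      rw [mo] at h2
      linarith
    rcases ha with ha | ha <;> rcases hb with hb | hb
    · rw [if_pos ⟨ha, hb⟩, if_neg fun h => dis a ha h.1]
      linarith
    · have hne : a ≠ b := by
        rintro rfl
        exact dis a ha hb
      rw [if_neg fun h => dis b h.2 hb, if_neg fun h => dis a ha h.1]
      have h3 : -δ ≤ f a b := by
        simp only [hf]
        rw [if_neg hne]
        exact hL _ (far a b ha hb)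
      linarith
    · have hne : a ≠ b := by
        rintro rfl
        exact dis a hb ha
      rw [if_neg fun h => dis a h.1 ha, if_neg fun h => dis b hb h.2]
      have h3 : -δ ≤ f a b := by
        simp only [hf]
        rw [if_neg hne]
        refine hL _ ?_
        rw [norm_sub_rev]
        exact far b a hb ha
      linarith
    · rw [if_neg fun h => dis a h.1 ha, if_pos ⟨ha, hb⟩]
      linarith
  have h1 := Finset.sum_le_sum fun a (_ : a ∈ Finset.univ) => Finset.sum_le_sum fun b (_ : b ∈ Finset.univ) => key a b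
  have h2 : PS W Finset.univ X = ∑ a, ∑ b, f a b := rfl
  rw [h2]
  refine le_trans (le_of_eq ?_) h1
  rw [hPSI I, hPSI O]
  simp only [Finset.sum_sub_distrib, Finset.sum_add_distrib, mul_add, Finset.sum_const,
    Finset.card_univ, Fintype.card_fin, nsmul_eq_mul, ← Finset.mul_sum, Finset.sum_boole]
  have hAf : (Finset.univ.filter fun i => i ∈ A) = A := by ext i; simp
  rw [hAf]
  ring

lemma num1 {n θ ε k o : ℝ} (hn : 0 ≤ n) (hθ0 : 0 < θ) (hθ2 : θ ≤ 1 / 2) (hθε : θ ≤ ε)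
    (hk : θ * n ≤ k) (hk2 : k < (1 - ε) * n) (ho : 0 ≤ o) (ho2 : o ≤ n - k) :
    k ^ 2 + o ^ 2 ≤ (1 - θ) * n ^ 2 := by
  have h2 : o ^ 2 ≤ (n - k) ^ 2 := pow_le_pow_left₀ ho ho2 2
  have h5 : θ * n ≤ ε * n := mul_le_mul_of_nonneg_right hθε hn
  have h3 : 0 ≤ (k - θ * n) * ((1 - θ) * n - k) := mul_nonneg (by linarith) (by linarith)
  have h6 : θ ≤ 2 * (θ * (1 - θ)) := by nlinarith
  have h4 : θ * n ^ 2 ≤ 2 * (θ * (1 - θ)) * n ^ 2 := mul_le_mul_of_nonneg_right h6 (by positivity)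
  nlinarith

lemma num2 {n θ m δ M c K k o A P PI PO : ℝ} (hn : 0 < n) (hθ : 0 < θ) (hm : 0 < m)
    (hδ : δ = θ * m / 8) (hM : M = -m) (hPI : k ^ 2 * (M - δ) - c * K ^ 2 ≤ PI)
    (hPO : o ^ 2 * (M - δ) - c * K ^ 2 ≤ PO) (hsp : PI + PO - δ * n ^ 2 - 2 * c * n * A ≤ P)
    (hPS : P ≤ n * (n - 1) * M) (h1 : k ^ 2 + o ^ 2 ≤ (1 - θ) * n ^ 2)
    (h2 : 2 * c * n * A ≤ δ * n ^ 2) (h3 : 2 * c * K ^ 2 ≤ δ * n ^ 2) (h4 : m * n ≤ δ * n ^ 2) : False := by
  have hδ0 : 0 < δ := by rw [hδ]; positivity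
  have h5 : (k ^ 2 + o ^ 2) * (m + δ) ≤ (1 - θ) * n ^ 2 * (m + δ) :=
    mul_le_mul_of_nonneg_right h1 (by linarith)
  have h6 : θ * m * n ^ 2 = 8 * (δ * n ^ 2) := by rw [hδ]; ring
  have h7 : 0 < δ * n ^ 2 := by positivity
  have h8 : 0 ≤ θ * (δ * n ^ 2) := by positivity
  subst hM
  have e1 : n * (n - 1) * -m = -(m * n ^ 2) + m * n := by ring
  have e2 : k ^ 2 * (-m - δ) + o ^ 2 * (-m - δ) = -((k ^ 2 + o ^ 2) * (m + δ)) := by ring
  have e3 : (1 - θ) * n ^ 2 * (m + δ) = m * n ^ 2 - θ * m * n ^ 2 + δ * n ^ 2 - θ * (δ * n ^ 2) := by ring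
  rw [e1] at hPS
  rw [e3, h6] at h5
  linarith

lemma num3 {n θ m δ M X : ℝ} (hn : 0 < n) (hm : 0 < m) (hθ2 : θ ≤ 1 / 2)
    (hδ : δ = θ * m / 8) (hM : M = -m) (h3 : n * (-δ * n - X) ≤ n * (n - 1) * M)
    (h4 : X ≤ m / 4 * n) (h5 : m * n ≤ δ * n ^ 2) : False := by
  subst hM
  have h6 : δ * n ^ 2 ≤ m / 16 * n ^ 2 := by
    refine mul_le_mul_of_nonneg_right ?_ (by positivity)
    rw [hδ]
    have := mul_le_mul_of_nonneg_right hθ2 hm.le
    linarith
  have h7 : n * X ≤ n * (m / 4 * n) := mul_le_mul_of_nonneg_left h4 hn.le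
  have h8 : 0 < m * n ^ 2 := by positivity
  have e1 : n * (n - 1) * -m = -(m * n ^ 2) + m * n := by ring
  have e2 : n * (-δ * n - X) = -(δ * n ^ 2) - n * X := by ring
  have e3 : n * (m / 4 * n) = m / 4 * n ^ 2 := by ring
  rw [e1, e2] at h3
  rw [e3] at h7
  linarith

lemma num4 {c k t δ n : ℝ} (hc : 0 ≤ c) (hδ : 0 ≤ δ) (ht : t ≤ k) (ht0 : 0 ≤ t) :
    -δ * n - c * k ≤ -δ * (n - t) - c * t := by
  have h1 := mul_le_mul_of_nonneg_left ht hc
  have h2 := mul_nonneg hδ ht0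
  linarith

lemma num5 {s L : ℝ} (hs : 0 ≤ s) (hL : 0 ≤ L) : L ≤ (s + 1) * L := by
  have := mul_nonneg hs hL
  linarith

set_option maxHeartbeats 2000000 in
lemma tightB {c M ε : ℝ} (hc0 : 0 < c) (hc : ∀ x, -c ≤ W x)
    (h0 : ∀ δ : ℝ, 0 < δ → ∃ L : ℝ, 0 ≤ L ∧ ∀ x : Esp d, L < ‖x‖ → -δ ≤ W x) (hM : M < 0)
    (hlim : ∀ τ : ℝ, 0 < τ → ∃ k0 : ℕ, 2 ≤ k0 ∧ ∀ k, k0 ≤ k → M - τ ≤ mm W sg k)
    (hε : 0 < ε) (hε2 : ε ≤ 1 / 2) :
    ∃ R : ℝ, 0 ≤ R ∧ ∃ N0 : ℕ, ∀ N : ℕ, N0 ≤ N → ∀ X : Fin N → Esp d,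
      (sg → Function.Injective X) → PS W Finset.univ X ≤ N * (N - 1) * M →
      ∃ j, (1 - ε) * N ≤ cnt X j R := by
  obtain ⟨m, hm⟩ : ∃ m : ℝ, m = -M := ⟨_, rfl⟩
  have hm0 : 0 < m := by linarith
  obtain ⟨θ, hθ0, hθε, hθc⟩ : ∃ θ : ℝ, 0 < θ ∧ θ ≤ ε ∧ c * θ ≤ m / 4 := by
    refine ⟨min ε (m / (4 * c)), lt_min hε (by positivity), min_le_left _ _, ?_⟩
    calc c * min ε (m / (4 * c)) ≤ c * (m / (4 * c)) := mul_le_mul_of_nonneg_left (min_le_right _ _) hc0.le
      _ = m / 4 := by field_simp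
  have hθ2 : θ ≤ 1 / 2 := hθε.trans hε2
  obtain ⟨δ, hδ⟩ : ∃ δ : ℝ, δ = θ * m / 8 := ⟨_, rfl⟩
  have hδ0 : 0 < δ := by rw [hδ]; positivity
  obtain ⟨L0, hL00, hL0⟩ := h0 δ hδ0
  obtain ⟨L, hLdef⟩ : ∃ L : ℝ, L = L0 + 1 := ⟨_, rfl⟩
  have hL1 : 0 < L := by linarith
  have hL : ∀ x : Esp d, L < ‖x‖ → -δ ≤ W x := fun x hx => hL0 x (by linarith)
  obtain ⟨J, hJ1, hJ⟩ : ∃ J : ℕ, 1 ≤ J ∧ 16 * c / (θ * m) ≤ J := by
    refine ⟨⌈16 * c / (θ * m)⌉₊ + 1, by omega, ?_⟩
    push_cast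
    have := Nat.le_ceil (16 * c / (θ * m))
    linarith
  have hJ0 : (0 : ℝ) < J := by exact_mod_cast hJ1
  have hJc : 2 * c / J ≤ δ := by
    rw [div_le_iff₀ hJ0, hδ]
    rw [div_le_iff₀ (by positivity)] at hJ
    linarith
  obtain ⟨k0, hk0, hk⟩ := hlim δ hδ0
  obtain ⟨N0, hN0⟩ : ∃ N0 : ℕ, 8 / θ + 16 * c * k0 ^ 2 / (θ * m) + 2 ≤ N0 :=
    ⟨⌈8 / θ + 16 * c * k0 ^ 2 / (θ * m) + 2⌉₊, Nat.le_ceil _⟩
  refine ⟨(J + 1) * L, by positivity, N0, fun N hN X hX hPS => ?_⟩
  by_contra hcon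
  push Not at hcon
  obtain ⟨n, hn⟩ : ∃ n : ℝ, n = N := ⟨_, rfl⟩
  have hnN0 : 8 / θ + 16 * c * k0 ^ 2 / (θ * m) + 2 ≤ n := by
    rw [hn]; exact hN0.trans (by exact_mod_cast hN)
  have hp1 : 0 ≤ 8 / θ := by positivity
  have hp2 : 0 ≤ 16 * c * (k0 : ℝ) ^ 2 / (θ * m) := by positivity
  have hn2 : 2 ≤ n := by linarith
  have hn8 : m * n ≤ δ * n ^ 2 := by
    have h1 : 8 / θ ≤ n := by linarith
    rw [div_le_iff₀ hθ0] at h1
    rw [hδ]
    nlinarith [mul_pos hm0 (show (0 : ℝ) < n by linarith)]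
  have hnk : 2 * c * (k0 : ℝ) ^ 2 ≤ δ * n ^ 2 := by
    have h1 : 16 * c * (k0 : ℝ) ^ 2 / (θ * m) ≤ n := by linarith
    rw [div_le_iff₀ (by positivity)] at h1
    have h2 : n ≤ n ^ 2 := by nlinarith
    have h3 : n * (θ * m) ≤ n ^ 2 * (θ * m) := mul_le_mul_of_nonneg_right h2 (by positivity)
    rw [hδ]
    linarith
  have hNpos : 0 < N := by
    have : (0 : ℝ) < N := by rw [← hn]; linarith
    exact_mod_cast this
  have : Nonempty (Fin N) := ⟨⟨0, hNpos⟩⟩
  set r : ℕ → ℝ := fun s => (s + 1) * L with hr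
  set q : ℕ → ℕ := fun s => Finset.univ.sup fun j => cnt X j (r s) with hq
  have hqle : ∀ s j, cnt X j (r s) ≤ q s := fun s j =>
    Finset.le_sup (f := fun j => cnt X j (r s)) (Finset.mem_univ j)
  have hqex : ∀ s, ∃ j, q s = cnt X j (r s) := by
    intro s
    obtain ⟨j, -, hj⟩ := Finset.exists_mem_eq_sup (Finset.univ : Finset (Fin N)) Finset.univ_nonempty
      (fun j => cnt X j (r s))
    exact ⟨j, hj⟩
  have hqJ : (q J : ℝ) < (1 - ε) * n := by
    obtain ⟨j, hj⟩ := hqex J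
    rw [hj, hn]
    exact hcon j
  have hpig : ∃ s, s < J ∧ (q (s + 1) : ℝ) ≤ q s + n / J := by
    by_contra hno
    push Not at hno
    have h1 : ∀ s, s ≤ J → (s : ℝ) * (n / J) ≤ q s := by
      intro s
      induction s with
      | zero => intro _; simp
      | succ s ih =>
        intro hs
        have h2 := ih (by omega)
        have h3 := hno s (by omega)
        push_cast
        linarith
    have h2 := h1 J le_rfl
    rw [mul_div_cancel₀ _ hJ0.ne'] at h2
    nlinarith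
  obtain ⟨s, hsJ, hs⟩ := hpig
  obtain ⟨j, hj⟩ := hqex s
  set k1 : ℝ := (q s : ℝ) with hk1
  have hqmono : q s ≤ q J := by
    rw [hj]
    refine le_trans ?_ (hqle J j)
    refine Finset.card_le_card fun i hi => ?_
    rw [Finset.mem_filter] at hi ⊢
    refine ⟨hi.1, hi.2.trans ?_⟩
    simp only [hr]
    have : (s : ℝ) ≤ J := by exact_mod_cast hsJ.le
    nlinarith
  have hk1ε : k1 < (1 - ε) * n := lt_of_le_of_lt (by rw [hk1]; exact_mod_cast hqmono) hqJ
  have hk10 : 0 ≤ k1 := Nat.cast_nonneg _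
  rw [← hn] at hPS
  rcases lt_or_ge k1 (θ * n) with hcase | hcase
  · have hrL : L ≤ r s := by
      simp only [hr]
      have : (0 : ℝ) ≤ s := Nat.cast_nonneg s
      nlinarith
    have h1 : ∀ a : Fin N, -δ * n - c * k1 ≤ ∑ i, if a = i then 0 else W (X a - X i) := by
      intro a
      have h2 := row_ge (T := -δ) hc0.le hc (by linarith : 0 ≤ r s)
        (fun x hx => hL x (lt_of_le_of_lt hrL hx)) X a
      refine le_trans ?_ h2
      have h3 : (cnt X a (r s) : ℝ) ≤ k1 := by rw [hk1]; exact_mod_cast hqle s a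
      have h4 : (0 : ℝ) ≤ cnt X a (r s) := Nat.cast_nonneg _
      rw [← hn]
      exact num4 hc0.le hδ0.le h3 h4
    have h2 := Finset.card_nsmul_le_sum Finset.univ _ _ fun a _ => h1 a
    rw [Finset.card_univ, Fintype.card_fin, nsmul_eq_mul, ← hn] at h2
    have h3 : n * (-δ * n - c * k1) ≤ n * (n - 1) * M := h2.trans hPS
    have h4 : c * k1 ≤ m / 4 * n := by
      have := mul_le_mul_of_nonneg_left hcase.le hc0.le
      have h5 := mul_le_mul_of_nonneg_right hθc (show (0 : ℝ) ≤ n by linarith)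
      linarith
    exact num3 (show 0 < n by linarith) hm0 hθ2 hδ (by linarith) h3 h4 hn8
  · have hsp := split_ge (r := r s) hL1.le hc0.le hc hδ0.le hL X j
    set I := Finset.univ.filter fun i => ‖X i - X j‖ ≤ r s with hI
    set O := Finset.univ.filter fun i => r s + L < ‖X i - X j‖ with hO
    set A := Finset.univ.filter fun i => ¬ ‖X i - X j‖ ≤ r s ∧ ¬ r s + L < ‖X i - X j‖ with hA
    have hIc : (I.card : ℝ) = k1 := by rw [hk1, hj]; rfl
    have hIO : (O.card : ℝ) ≤ n - k1 := by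
      have h1 : I.card + O.card ≤ N := by
        rw [← Finset.card_union_of_disjoint]
        · refine (Finset.card_le_univ _).trans ?_
          rw [Fintype.card_fin]
        · rw [Finset.disjoint_left]
          intro i h1 h2
          rw [hI, Finset.mem_filter] at h1
          rw [hO, Finset.mem_filter] at h2
          linarith [h1.2, h2.2]
      have h2 : (I.card : ℝ) + O.card ≤ N := by exact_mod_cast h1
      rw [hIc, ← hn] at h2
      linarith
    have hAc : (A.card : ℝ) ≤ n / J := by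
      have h1 : I.card + A.card ≤ q (s + 1) := by
        refine le_trans ?_ (hqle (s + 1) j)
        rw [← Finset.card_union_of_disjoint]
        · refine Finset.card_le_card fun i hi => ?_
          rw [Finset.mem_union] at hi
          rw [Finset.mem_filter]
          refine ⟨Finset.mem_univ _, ?_⟩
          have h3 : r (s + 1) = r s + L := by simp only [hr]; push_cast; ring
          rw [h3]
          rcases hi with hi | hi
          · rw [hI, Finset.mem_filter] at hi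
            linarith [hi.2]
          · rw [hA, Finset.mem_filter] at hi
            exact not_lt.1 hi.2.2
        · rw [Finset.disjoint_left]
          intro i h1 h2
          rw [hI, Finset.mem_filter] at h1
          rw [hA, Finset.mem_filter] at h2
          exact h2.2.1 h1.2
      have h2 : (I.card : ℝ) + A.card ≤ q (s + 1) := by exact_mod_cast h1
      rw [hIc] at h2
      linarith
    have hPI := PS_ge' hc0.le hc hM hδ0.le hk0 hk I X (fun h => (hX h).injOn)
    have hPO := PS_ge' hc0.le hc hM hδ0.le hk0 hk O X (fun h => (hX h).injOn)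
    rw [hIc] at hPI
    rw [← hn] at hsp
    have hO0 : (0 : ℝ) ≤ O.card := Nat.cast_nonneg _
    have h1 : k1 ^ 2 + (O.card : ℝ) ^ 2 ≤ (1 - θ) * n ^ 2 :=
      num1 (by linarith) hθ0 hθ2 hθε hcase hk1ε hO0 hIO
    have h2 : 2 * c * n * A.card ≤ δ * n ^ 2 := by
      have h3 : 2 * c * n * A.card ≤ 2 * c * n * (n / J) := mul_le_mul_of_nonneg_left hAc (by positivity)
      have h4 : 2 * c * n * (n / J) = (2 * c / J) * n ^ 2 := by field_simp
      have h5 : (2 * c / J) * n ^ 2 ≤ δ * n ^ 2 := mul_le_mul_of_nonneg_right hJc (by positivity)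
      linarith
    exact num2 (show 0 < n by linarith) hθ0 hm0 hδ (by linarith) hPI hPO hsp hPS h1 h2 hnk hn8

end

end Pool.Agent.V1175.BB
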