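import Mathlib

open MeasureTheory

namespace Pool.Agent.V1175.BB

noncomputable section

/-- the space `ℝ^d` -/
abbrev Esp (d : ℕ) := EuclideanSpace ℝ (Fin d)

/-- `t^γ / γ`, read as `log t` for `γ = 0` -/
def pw (γ t : ℝ) : ℝ := if γ = 0 then Real.log t else t ^ γ / γ

/-- the interaction potential `W(x) = -|x|^α/α + |x|^β/β`. Lean's value at `x = 0` is `0`; this is
the right value for `0 < α`, while for `α ≤ 0` the true value is `+∞` and the point `x = 0` is
excluded separately below. -/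
def pot {d : ℕ} (α β : ℝ) (x : Esp d) : ℝ := -pw α ‖x‖ + pw β ‖x‖

/-- the discrete energy `E_N[X] = (1/2) ∑_{i ≠ j} W(X_i - X_j)` -/
def discE {d N : ℕ} (α β : ℝ) (X : Fin N → Esp d) : ℝ :=
  1 / 2 * ∑ i, ∑ j, if i = j then 0 else pot α β (X i - X j)

/-- the discrete energy of `X` is finite: for `α ≤ 0`, where `W(0) = +∞`, the points are distinct -/
def Adm {d N : ℕ} (α : ℝ) (X : Fin N → Esp d) : Prop := α ≤ 0 → Function.Injective X

/-- `X` is a (global) minimiser of the discrete energy over `(ℝ^d)^N` -/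
def IsDiscreteMin {d N : ℕ} (α β : ℝ) (X : Fin N → Esp d) : Prop :=
  Adm α X ∧ ∀ Y : Fin N → Esp d, Adm α Y → discE α β X ≤ discE α β Y

/-- the continuum energy of `ρ` is finite: `W(x - y)` is `ρ ⊗ ρ`-integrable (`W` is bounded below)
and, for `α ≤ 0`, where `W(0) = +∞`, the diagonal is `ρ ⊗ ρ`-null -/
def FiniteEnergy {d : ℕ} (α β : ℝ) (ρ : Measure (Esp d)) : Prop :=
  Integrable (fun p : Esp d × Esp d => pot α β (p.1 - p.2)) (ρ.prod ρ) ∧
    (α ≤ 0 → (ρ.prod ρ) {p | p.1 = p.2} = 0)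

/-- the continuum energy `E[ρ] = (1/2) ∬ W(x - y) dρ(x) dρ(y)` of a `ρ` of finite energy -/
def energy {d : ℕ} (α β : ℝ) (ρ : Measure (Esp d)) : ℝ :=
  1 / 2 * ∫ p : Esp d × Esp d, pot α β (p.1 - p.2) ∂(ρ.prod ρ)

/-- `ρ` is a (global) minimiser of the continuum energy over the Borel probability measures -/
def IsContMin {d : ℕ} (α β : ℝ) (ρ : ProbabilityMeasure (Esp d)) : Prop :=
  FiniteEnergy α β (ρ : Measure (Esp d)) ∧ ∀ σ : ProbabilityMeasure (Esp d),
    FiniteEnergy α β (σ : Measure (Esp d)) →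
      energy α β (ρ : Measure (Esp d)) ≤ energy α β (σ : Measure (Esp d))

end

end Pool.Agent.V1175.BB
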