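import Pool.Agent.V1175.BB.Core

open MeasureTheory Set Filter Topology
open scoped ENNReal BoundedContinuousFunction

namespace Pool.Agent.V1175.BB

noncomputable section

variable {d : ℕ} {W : Esp d → ℝ} {sg : Prop}

open Classical in
/-- the truncated potential -/
def tr (W : Esp d → ℝ) (sg : Prop) (K : ℝ) (x : Esp d) : ℝ :=
  if x = 0 ∧ sg then K else min (W x) K

lemma tr_le {K : ℝ} (x : Esp d) : tr W sg K x ≤ K := by
  unfold tr; split_ifs
  · exact le_rfl
  · exact min_le_right _ _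

lemma tr_ge {c K : ℝ} (hc : ∀ x, -c ≤ W x) (hK : -c ≤ K) (x : Esp d) : -c ≤ tr W sg K x := by
  unfold tr; split_ifs
  · exact hK
  · exact le_min (hc x) hK

lemma tr_cont {K : ℝ} (h1 : ∀ x : Esp d, x ≠ 0 → ContinuousAt W x)
    (h2 : sg → Tendsto W (𝓝[≠] 0) atTop) (h3 : ¬ sg → ContinuousAt W 0) :
    Continuous (tr W sg K) := by
  rw [continuous_iff_continuousAt]
  intro x
  by_cases hx : x = 0
  · subst hx
    by_cases hs : sg
    · have h4 : ∀ᶠ y in 𝓝[≠] (0 : Esp d), K ≤ W y := (h2 hs).eventually_ge_atTop K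
      rw [eventually_nhdsWithin_iff] at h4
      have h5 : tr W sg K =ᶠ[𝓝 0] fun _ => K := by
        filter_upwards [h4] with y hy
        unfold tr
        by_cases hy0 : y = 0
        · rw [if_pos ⟨hy0, hs⟩]
        · rw [if_neg fun h => hy0 h.1, min_eq_right (hy hy0)]
      exact (continuousAt_const (y := K)).congr h5.symm
    · have h5 : tr W sg K = fun y => min (W y) K := by
        funext y
        unfold tr
        rw [if_neg fun h => hs h.2]
      rw [h5]
      exact (h3 hs).min continuousAt_const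
  · have h5 : tr W sg K =ᶠ[𝓝 x] fun y => min (W y) K := by
      filter_upwards [isOpen_ne.mem_nhds hx] with y hy
      unfold tr
      rw [if_neg fun h => hy h.1]
    exact ContinuousAt.congr (f := fun y => min (W y) K) ((h1 x hx).min continuousAt_const) h5.symm

/-- the truncated potential as a bounded continuous function of two points -/
def trB {c K : ℝ} (hc : ∀ x, -c ≤ W x) (hK : -c ≤ K) (h1 : ∀ x : Esp d, x ≠ 0 → ContinuousAt W x)
    (h2 : sg → Tendsto W (𝓝[≠] 0) atTop) (h3 : ¬ sg → ContinuousAt W 0) : (Esp d × Esp d) →ᵇ ℝ :=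
  BoundedContinuousFunction.ofNormedAddCommGroup (fun p => tr W sg K (p.1 - p.2))
    ((tr_cont h1 h2 h3).comp (continuous_fst.sub continuous_snd)) (max |c| |K|) (by
      intro p
      rw [Real.norm_eq_abs, abs_le]
      have e1 := tr_le (W := W) (sg := sg) (K := K) (p.1 - p.2)
      have e2 := tr_ge (sg := sg) hc hK (p.1 - p.2)
      constructor
      · have := le_max_left |c| |K|
        have := le_abs_self c
        linarith
      · have := le_max_right |c| |K|
        have := le_abs_self K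
        linarith)

/-! ### Empirical measures -/

def emp {N : ℕ} (X : Fin N → Esp d) (a : Esp d) : Measure (Esp d) :=
  (N : ℝ≥0∞)⁻¹ • ∑ i, Measure.dirac (X i - a)

lemma emp_apply {N : ℕ} (X : Fin N → Esp d) (a : Esp d) {s : Set (Esp d)} (hs : MeasurableSet s) :
    emp X a s = (N : ℝ≥0∞)⁻¹ * ∑ i, s.indicator 1 (X i - a) := by
  unfold emp
  rw [Measure.smul_apply, Measure.finsetSum_apply, smul_eq_mul]
  simp only [Measure.dirac_apply' _ hs]

lemma emp_prob {N : ℕ} (hN : 0 < N) (X : Fin N → Esp d) (a : Esp d) : IsProbabilityMeasure (emp X a) := by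
  constructor
  rw [emp_apply X a MeasurableSet.univ]
  simp only [indicator_univ, Pi.one_apply, Finset.sum_const, Finset.card_univ, Fintype.card_fin,
    nsmul_eq_mul, mul_one]
  exact ENNReal.inv_mul_cancel (by exact_mod_cast hN.ne') (ENNReal.natCast_ne_top N)

lemma emp_integral {N : ℕ} (X : Fin N → Esp d) (a : Esp d) (f : Esp d → ℝ) :
    ∫ x, f x ∂(emp X a) = (1 / N : ℝ) * ∑ i, f (X i - a) := by
  unfold emp
  rw [integral_smul_measure, integral_finsetSum_measure fun i _ => integrable_dirac (by simp [enorm_lt_top])]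
  simp only [integral_dirac]
  rw [ENNReal.toReal_inv, ENNReal.toReal_natCast, smul_eq_mul, one_div]

/-- the energy bound of the truncated potential for an empirical measure -/
lemma emp_tr {K : ℝ} {N : ℕ} (hN : 2 ≤ N) (X : Fin N → Esp d) (a : Esp d)
    (hX : sg → Function.Injective X) {M : ℝ} (hM : PS W Finset.univ X ≤ N * (N - 1) * M) :
    (1 / N : ℝ) * ∑ i, ((1 / N : ℝ) * ∑ j, tr W sg K ((X i - a) - (X j - a))) ≤
      (1 - 1 / N) * M + K / N := by
  have hN0 : (0 : ℝ) < N := by positivity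
  have h1 : ∀ i j, tr W sg K ((X i - a) - (X j - a)) ≤
      (if i = j then 0 else W (X i - X j)) + if i = j then K else 0 := by
    intro i j
    rw [sub_sub_sub_cancel_right]
    by_cases hij : i = j
    · rw [if_pos hij, if_pos hij, zero_add]
      exact tr_le _
    · rw [if_neg hij, if_neg hij, add_zero]
      unfold tr
      rw [if_neg]
      · exact min_le_left _ _
      · rintro ⟨h2, h3⟩
        exact hij (hX h3 (sub_eq_zero.1 h2))
  have h2 : ∑ i, ∑ j, tr W sg K ((X i - a) - (X j - a)) ≤ PS W Finset.univ X + N * K := by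
    refine (Finset.sum_le_sum fun i _ => Finset.sum_le_sum fun j _ => h1 i j).trans (le_of_eq ?_)
    simp only [Finset.sum_add_distrib]
    congr 1
    simp
  calc (1 / N : ℝ) * ∑ i, ((1 / N : ℝ) * ∑ j, tr W sg K ((X i - a) - (X j - a)))
      = (1 / N) * (1 / N) * ∑ i, ∑ j, tr W sg K ((X i - a) - (X j - a)) := by
        rw [← Finset.mul_sum, ← mul_assoc]
    _ ≤ (1 / N) * (1 / N) * (N * (N - 1) * M + N * K) := by
        refine mul_le_mul_of_nonneg_left (h2.trans (by linarith)) (by positivity)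
    _ = _ := by field_simp


/-! ### Lower semicontinuity -/

lemma liminf_bound {c M : ℝ} (hc0 : 0 ≤ c) (hc : ∀ x, -c ≤ W x) (hWm : Measurable W)
    (h1 : ∀ x : Esp d, x ≠ 0 → ContinuousAt W x)
    (h2 : sg → Tendsto W (𝓝[≠] 0) atTop) (h3 : ¬ sg → ContinuousAt W 0)
    (ρ : Measure (Esp d)) [IsProbabilityMeasure ρ]
    (hK : ∀ K : ℕ, ∫ p : Esp d × Esp d, tr W sg K (p.1 - p.2) ∂(ρ.prod ρ) ≤ M) :
    Fin0 W sg ρ ∧ En W ρ ≤ M := by
  classical
  set P := ρ.prod ρ with hP
  set G : Esp d × Esp d → ℝ≥0∞ := fun p =>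
    if (p.1 - p.2 = 0 ∧ sg) then ⊤ else ENNReal.ofReal (W (p.1 - p.2) + c) with hG
  set F : ℕ → Esp d × Esp d → ℝ≥0∞ := fun K p => ENNReal.ofReal (tr W sg K (p.1 - p.2) + c) with hF
  have hKc : ∀ K : ℕ, -c ≤ (K : ℝ) := fun K => by
    have : (0 : ℝ) ≤ K := Nat.cast_nonneg K
    linarith
  have htrc : ∀ K : ℕ, Continuous fun p : Esp d × Esp d => tr W sg K (p.1 - p.2) := fun K =>
    (tr_cont h1 h2 h3).comp (continuous_fst.sub continuous_snd)
  have htri : ∀ K : ℕ, Integrable (fun p : Esp d × Esp d => tr W sg K (p.1 - p.2)) P := fun K =>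
    (trB (sg := sg) (K := K) hc (hKc K) h1 h2 h3).integrable P
  have hlim : ∀ p, Tendsto (fun K => F K p) atTop (𝓝 (G p)) := by
    intro p
    by_cases hp : p.1 - p.2 = 0 ∧ sg
    · simp only [hG, hF, if_pos hp, tr]
      exact ENNReal.tendsto_ofReal_atTop.comp (tendsto_atTop_add_const_right _ _ tendsto_natCast_atTop_atTop)
    · simp only [hG, hF, if_neg hp, tr]
      obtain ⟨K0, hK0⟩ := exists_nat_ge (W (p.1 - p.2))
      refine tendsto_const_nhds.congr' ?_
      filter_upwards [eventually_ge_atTop K0] with K hK'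
      rw [min_eq_left (hK0.trans (by exact_mod_cast hK'))]
  have hle : ∫⁻ p, G p ∂P ≤ ENNReal.ofReal (M + c) := by
    have e1 : ∫⁻ p, G p ∂P = ∫⁻ p, liminf (fun K => F K p) atTop ∂P :=
      lintegral_congr fun p => (hlim p).liminf_eq.symm
    rw [e1]
    refine (lintegral_liminf_le fun K => ?_).trans ?_
    · exact ((htrc K).measurable.add_const c).ennreal_ofReal
    · refine liminf_le_of_le (by isBoundedDefault) fun b hb => ?_
      obtain ⟨K, hKb⟩ := hb.exists
      refine hKb.trans ?_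
      simp only [hF]
      have hi2 : Integrable (fun p : Esp d × Esp d => tr W sg K (p.1 - p.2) + c) P :=
        (htri K).add (integrable_const c)
      rw [← ofReal_integral_eq_lintegral_ofReal hi2
        (Filter.Eventually.of_forall fun p => by
          have := tr_ge (sg := sg) hc (hKc K) (p.1 - p.2)
          simp only [Pi.zero_apply]
          linarith)]
      refine ENNReal.ofReal_le_ofReal ?_
      rw [integral_add (htri K) (integrable_const c)]
      simp only [integral_const, probReal_univ, one_smul]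
      have := hK K
      linarith
  have hMc : 0 ≤ M + c := by
    have e1 := hK 0
    have e2 : ∫ p : Esp d × Esp d, -c ∂P ≤ ∫ p : Esp d × Esp d, tr W sg (0 : ℕ) (p.1 - p.2) ∂P :=
      integral_mono (integrable_const _) (htri 0) fun p => tr_ge (sg := sg) hc (hKc 0) _
    simp only [integral_const, probReal_univ, one_smul] at e2
    linarith
  have hWc : ∫⁻ p, ENNReal.ofReal (W (p.1 - p.2) + c) ∂P ≤ ENNReal.ofReal (M + c) := by
    refine (lintegral_mono fun p => ?_).trans hle
    simp only [hG]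
    split_ifs
    · exact le_top
    · exact le_rfl
  have hWm2 : Measurable fun p : Esp d × Esp d => W (p.1 - p.2) + c :=
    (hWm.comp (measurable_fst.sub measurable_snd)).add_const c
  have hnn : ∀ p : Esp d × Esp d, 0 ≤ W (p.1 - p.2) + c := fun p => by
    have := hc (p.1 - p.2)
    linarith
  have hint : Integrable (fun p : Esp d × Esp d => W (p.1 - p.2) + c) P := by
    refine ⟨hWm2.aestronglyMeasurable, ?_⟩
    rw [hasFiniteIntegral_iff_ofReal (Filter.Eventually.of_forall hnn)]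
    exact hWc.trans_lt ENNReal.ofReal_lt_top
  have hint2 : Integrable (fun p : Esp d × Esp d => W (p.1 - p.2)) P := by
    refine (hint.sub (integrable_const c)).congr (Filter.Eventually.of_forall fun p => ?_)
    show (W (p.1 - p.2) + c) - c = W (p.1 - p.2)
    ring
  refine ⟨⟨hint2, fun hs => ?_⟩, ?_⟩
  · have hGm : Measurable G := by
      refine Measurable.ite ?_ measurable_const hWm2.ennreal_ofReal
      have : MeasurableSet {p : Esp d × Esp d | p.1 - p.2 = 0} :=
        measurableSet_eq_fun (measurable_fst.sub measurable_snd) measurable_const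
      by_cases h : sg
      · simpa [h] using this
      · simp [h]
    have e1 := ae_lt_top hGm (hle.trans_lt ENNReal.ofReal_lt_top).ne
    rw [ae_iff] at e1
    refine measure_mono_null ?_ e1
    intro p hp
    have hp' : p.1 = p.2 := hp
    show ¬ G p < ⊤
    simp only [hG]
    rw [if_pos ⟨sub_eq_zero.2 hp', hs⟩]
    exact lt_irrefl _
  · have e1 : ∫ p : Esp d × Esp d, (W (p.1 - p.2) + c) ∂P ≤ M + c := by
      have e2 := ofReal_integral_eq_lintegral_ofReal hint (Filter.Eventually.of_forall hnn)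
      rw [← e2] at hWc
      exact (ENNReal.ofReal_le_ofReal_iff hMc).1 hWc
    rw [integral_add hint2 (integrable_const c)] at e1
    simp only [integral_const, probReal_univ, one_smul] at e1
    unfold En
    linarith

/-! ### The abstract convergence theorem -/

lemma emp_tail {N : ℕ} (hN : 0 < N) (X : Fin N → Esp d) (a : Esp d) {R ε : ℝ}
    (h : (1 - ε) * N ≤ ((Finset.univ.filter fun i => ‖X i - a‖ ≤ R).card : ℝ)) :
    emp X a {x | R < ‖x‖} ≤ ENNReal.ofReal ε := by
  have hm : MeasurableSet {x : Esp d | R < ‖x‖} := measurableSet_lt measurable_const measurable_norm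
  rw [emp_apply X a hm]
  have h1 : ∑ i, ({x : Esp d | R < ‖x‖}).indicator (1 : Esp d → ℝ≥0∞) (X i - a) =
      ((Finset.univ.filter fun i => ¬ ‖X i - a‖ ≤ R).card : ℝ≥0∞) := by
    rw [Finset.card_filter]
    push_cast
    refine Finset.sum_congr rfl fun i _ => ?_
    by_cases hi : R < ‖X i - a‖
    · rw [indicator_of_mem (show X i - a ∈ {x : Esp d | R < ‖x‖} from hi), if_pos (not_le.2 hi)]; rfl
    · rw [indicator_of_notMem (show X i - a ∉ {x : Esp d | R < ‖x‖} from hi), if_neg]
      rw [not_not]; exact not_lt.1 hi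
  rw [h1]
  have h2 := Finset.card_filter_add_card_filter_not (s := (Finset.univ : Finset (Fin N)))
    (fun i => ‖X i - a‖ ≤ R)
  rw [Finset.card_univ, Fintype.card_fin] at h2
  have h3 : ((Finset.univ.filter fun i => ¬ ‖X i - a‖ ≤ R).card : ℝ) ≤ ε * N := by
    have h4 : ((Finset.univ.filter fun i => ‖X i - a‖ ≤ R).card : ℝ) +
        ((Finset.univ.filter fun i => ¬ ‖X i - a‖ ≤ R).card : ℝ) = N := by exact_mod_cast h2
    linarith
  have hN0 : (0 : ℝ) < N := by exact_mod_cast hN
  have h5 : (((Finset.univ.filter fun i => ¬ ‖X i - a‖ ≤ R).card : ℕ) : ℝ≥0∞) ≤ ENNReal.ofReal (ε * N) := by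
    rw [← ENNReal.ofReal_natCast]
    exact ENNReal.ofReal_le_ofReal h3
  calc (N : ℝ≥0∞)⁻¹ * _ ≤ (N : ℝ≥0∞)⁻¹ * ENNReal.ofReal (ε * N) := by gcongr
    _ = ENNReal.ofReal ε := by
      rw [← ENNReal.ofReal_natCast, ← ENNReal.ofReal_inv_of_pos hN0, ← ENNReal.ofReal_mul (by positivity)]
      congr 1
      field_simp


/-- tightness up to translations gives convergence to measures of energy at most `M` -/
theorem abs_main {c M : ℝ} (hc0 : 0 ≤ c) (hc : ∀ x, -c ≤ W x) (hWm : Measurable W)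
    (h1 : ∀ x : Esp d, x ≠ 0 → ContinuousAt W x)
    (h2 : sg → Tendsto W (𝓝[≠] 0) atTop) (h3 : ¬ sg → ContinuousAt W 0)
    (H : ∀ ε : ℝ, 0 < ε → ε ≤ 1 / 2 → ∃ R : ℝ, 0 ≤ R ∧ ∃ N0 : ℕ, ∀ N : ℕ, N0 ≤ N →
      ∀ X : Fin N → Esp d, (sg → Function.Injective X) → PS W Finset.univ X ≤ N * (N - 1) * M →
      ∃ j, (1 - ε) * N ≤ cnt X j R)
    (n : ℕ → ℕ) (hn : Tendsto n atTop atTop) (hn2 : ∀ k, 2 ≤ n k) (X : ∀ k, Fin (n k) → Esp d)
    (hX : ∀ k, sg → Function.Injective (X k))
    (hPS : ∀ k, PS W Finset.univ (X k) ≤ n k * (n k - 1) * M) :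
    ∃ a : ℕ → Esp d, ∀ φ : ℕ → ℕ, StrictMono φ → ∃ ψ : ℕ → ℕ, StrictMono ψ ∧
      ∃ ρ : ProbabilityMeasure (Esp d), Fin0 W sg ρ ∧ En W ρ ≤ M ∧
        ∀ f : Esp d →ᵇ ℝ, Tendsto (fun k => (1 / (n (φ (ψ k)) : ℝ)) *
          ∑ i, f (X (φ (ψ k)) i - a (φ (ψ k)))) atTop (𝓝 (∫ x, f x ∂(ρ : Measure (Esp d)))) := by
  have hn0 : ∀ k, 0 < n k := fun k => by have := hn2 k; omega
  obtain ⟨R1, hR1, N1, hN1⟩ := H (1 / 3) (by norm_num) (by norm_num)
  have hcen : ∀ k, ∃ j, N1 ≤ n k → (1 - 1 / 3 : ℝ) * n k ≤ cnt (X k) j R1 := by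
    intro k
    by_cases h : N1 ≤ n k
    · obtain ⟨j, hj⟩ := hN1 (n k) h (X k) (hX k) (hPS k)
      exact ⟨j, fun _ => hj⟩
    · exact ⟨⟨0, hn0 k⟩, fun h' => absurd h' h⟩
  choose jc hjc using hcen
  set a : ℕ → Esp d := fun k => X k (jc k) with ha
  have hprob : ∀ k, IsProbabilityMeasure (emp (X k) (a k)) := fun k => emp_prob (hn0 k) _ _
  set μ : ℕ → ProbabilityMeasure (Esp d) := fun k => ⟨emp (X k) (a k), hprob k⟩ with hμ
  have htail : ∀ ε : ℝ, 0 < ε → ∃ R : ℝ, ∀ᶠ k in atTop, emp (X k) (a k) {x | R < ‖x‖} ≤ ENNReal.ofReal ε := by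
    intro ε hε
    obtain ⟨ε', hε', hε'1, hε'2⟩ : ∃ ε' : ℝ, 0 < ε' ∧ ε' ≤ ε ∧ ε' ≤ 1 / 3 :=
      ⟨min ε (1 / 3), lt_min hε (by norm_num), min_le_left _ _, min_le_right _ _⟩
    obtain ⟨R, hR, N0, hN0⟩ := H ε' hε' (by linarith)
    refine ⟨2 * R + R1, ?_⟩
    filter_upwards [hn.eventually_ge_atTop (max N0 N1)] with k hk
    obtain ⟨j, hj⟩ := hN0 (n k) ((le_max_left _ _).trans hk) (X k) (hX k) (hPS k)
    have hj1 := hjc k ((le_max_right _ _).trans hk)
    refine (emp_tail (hn0 k) (X k) (a k) (ε := ε') ?_).trans (ENNReal.ofReal_le_ofReal hε'1)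
    refine hj.trans ?_
    unfold cnt
    have hinter : ∃ i, ‖X k i - X k j‖ ≤ R ∧ ‖X k i - a k‖ ≤ R1 := by
      by_contra hno
      push Not at hno
      have hdis : Disjoint (Finset.univ.filter fun i => ‖X k i - X k j‖ ≤ R)
          (Finset.univ.filter fun i => ‖X k i - X k (jc k)‖ ≤ R1) := by
        rw [Finset.disjoint_left]
        intro i hi1 hi2
        rw [Finset.mem_filter] at hi1 hi2
        exact absurd hi2.2 (not_le.2 (hno i hi1.2))
      have hcard := Finset.card_union_of_disjoint hdis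
      have hle : ((Finset.univ.filter fun i => ‖X k i - X k j‖ ≤ R) ∪
          (Finset.univ.filter fun i => ‖X k i - X k (jc k)‖ ≤ R1)).card ≤ n k := by
        refine (Finset.card_le_univ _).trans ?_
        rw [Fintype.card_fin]
      rw [hcard] at hle
      have hle2 : ((Finset.univ.filter fun i => ‖X k i - X k j‖ ≤ R).card : ℝ) +
          ((Finset.univ.filter fun i => ‖X k i - X k (jc k)‖ ≤ R1).card : ℝ) ≤ n k := by
        exact_mod_cast hle
      unfold cnt at hj hj1
      have hnk : (0 : ℝ) < n k := by exact_mod_cast hn0 k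
      nlinarith
    obtain ⟨i0, hi1, hi2⟩ := hinter
    have hsub : (Finset.univ.filter fun i => ‖X k i - X k j‖ ≤ R) ⊆
        (Finset.univ.filter fun i => ‖X k i - a k‖ ≤ 2 * R + R1) := by
      intro i hi
      rw [Finset.mem_filter] at hi ⊢
      refine ⟨hi.1, ?_⟩
      have e1 : X k i - a k = (X k i - X k j) + (-(X k i0 - X k j)) + (X k i0 - a k) := by abel
      rw [e1]
      refine (norm_add_le _ _).trans ?_
      have e2 := norm_add_le (X k i - X k j) (-(X k i0 - X k j))
      rw [norm_neg] at e2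
      linarith [hi.2]
    exact_mod_cast Finset.card_le_card hsub
  have htight : IsTightMeasureSet (Set.range fun k => (μ k : Measure (Esp d))) := by
    refine isTightMeasureSet_range_of_tendsto_limsup_measure_norm_gt ?_
    rw [ENNReal.tendsto_atTop_zero]
    intro ε hε
    by_cases htop : ε = ⊤
    · exact ⟨0, fun _ _ => htop ▸ le_top⟩
    · obtain ⟨R, hR⟩ := htail ε.toReal (ENNReal.toReal_pos hε.ne' htop)
      rw [ENNReal.ofReal_toReal htop] at hR
      refine ⟨R, fun r hr => ?_⟩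
      refine limsup_le_of_le (by isBoundedDefault) ?_
      filter_upwards [hR] with k hk
      refine le_trans (measure_mono fun x hx => ?_) hk
      exact lt_of_le_of_lt hr hx
  have hcompact : IsCompact (closure (Set.range μ)) := by
    refine isCompact_closure_of_isTightMeasureSet ?_
    convert htight using 1
    ext ν
    constructor
    · rintro ⟨m, ⟨k, rfl⟩, rfl⟩
      exact ⟨k, rfl⟩
    · rintro ⟨k, rfl⟩
      exact ⟨μ k, ⟨k, rfl⟩, rfl⟩
  refine ⟨a, fun φ hφ => ?_⟩
  obtain ⟨ρ, -, ψ, hψ, hconv⟩ := hcompact.tendsto_subseq (x := fun k => μ (φ k))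
    fun k => subset_closure ⟨φ k, rfl⟩
  have hχ : Tendsto (fun k => φ (ψ k)) atTop atTop := hφ.tendsto_atTop.comp hψ.tendsto_atTop
  have hnχ : Tendsto (fun k => (n (φ (ψ k)) : ℝ)) atTop atTop :=
    tendsto_natCast_atTop_atTop.comp (hn.comp hχ)
  have hbd : ∀ K : ℕ, ∫ p : Esp d × Esp d, tr W sg K (p.1 - p.2)
      ∂((ρ : Measure (Esp d)).prod (ρ : Measure (Esp d))) ≤ M := by
    intro K
    have hKc : -c ≤ (K : ℝ) := by
      have : (0 : ℝ) ≤ K := Nat.cast_nonneg K
      linarith
    set g := trB (sg := sg) (K := K) hc hKc h1 h2 h3 with hg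
    have e1 : Tendsto (fun k => (μ (φ (ψ k))).prod (μ (φ (ψ k)))) atTop (𝓝 (ρ.prod ρ)) :=
      (ProbabilityMeasure.continuous_prod.tendsto (ρ, ρ)).comp (hconv.prodMk_nhds hconv)
    have e2 := (ProbabilityMeasure.tendsto_iff_forall_integral_tendsto.1 e1) g
    have e3 : Tendsto (fun k => (1 - 1 / (n (φ (ψ k)) : ℝ)) * M + K / (n (φ (ψ k)) : ℝ)) atTop
        (𝓝 ((1 - 0) * M + 0)) := by
      refine Tendsto.add (Tendsto.mul_const _ (tendsto_const_nhds.sub ?_)) ?_
      · exact tendsto_const_nhds.div_atTop hnχ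
      · exact tendsto_const_nhds.div_atTop hnχ
    have e4 := le_of_tendsto_of_tendsto' e2 e3 fun k => ?_
    · have e6 : ∫ p, g p ∂((ρ : Measure (Esp d)).prod (ρ : Measure (Esp d))) ≤ M := by simpa using e4
      exact e6
    · set q := φ (ψ k) with hq
      have := hprob q
      have e5 : ∫ p, g p ∂(((μ q).prod (μ q) : ProbabilityMeasure _) : Measure (Esp d × Esp d)) =
          (1 / (n q) : ℝ) * ∑ i, ((1 / (n q) : ℝ) * ∑ j, tr W sg K ((X q i - a q) - (X q j - a q))) := by
        show ∫ p, g p ∂((emp (X q) (a q)).prod (emp (X q) (a q))) = _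
        rw [integral_prod _ (g.integrable _)]
        show ∫ x, (∫ y, tr W sg K (x - y) ∂(emp (X q) (a q))) ∂(emp (X q) (a q)) = _
        simp only [emp_integral]
      rw [e5]
      exact emp_tr (hn2 q) (X q) (a q) (hX q) (hPS q)
  obtain ⟨hF, hE⟩ := liminf_bound hc0 hc hWm h1 h2 h3 (ρ : Measure (Esp d)) hbd
  refine ⟨ψ, hψ, ρ, hF, hE, fun f => ?_⟩
  have e1 := (ProbabilityMeasure.tendsto_iff_forall_integral_tendsto.1 hconv) f
  refine e1.congr fun k => ?_
  show ∫ x, f x ∂(emp (X (φ (ψ k))) (a (φ (ψ k)))) = _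
  rw [emp_integral]

end

end Pool.Agent.V1175.BB
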