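import Pool.Agent.V1175.BB.Defs

open MeasureTheory Set Filter Topology
open scoped ENNReal BoundedContinuousFunction

namespace Pool.Agent.V1175.BB

noncomputable section

/-! ### The one-variable functions -/

/-- the normalised power function, monotone in the exponent -/
def hh (γ t : ℝ) : ℝ := if γ = 0 then Real.log t else (t ^ γ - 1) / γ

lemma pw_eq (γ t : ℝ) : pw γ t = hh γ t + 1 / γ := by
  unfold pw hh
  by_cases h : γ = 0
  · simp [h]
  · rw [if_neg h, if_neg h]
    ring

lemma hh_mono {t γ δ : ℝ} (ht : 0 < t) (h : γ ≤ δ) : hh γ t ≤ hh δ t := by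
  have hrp : ∀ s : ℝ, t ^ s = Real.exp (s * Real.log t) := by
    intro s
    rw [Real.rpow_def_of_pos ht, mul_comm]
  have hlow : ∀ s : ℝ, s * Real.log t ≤ t ^ s - 1 := by
    intro s
    have := Real.add_one_le_exp (s * Real.log t)
    rw [hrp]
    linarith
  unfold hh
  by_cases h1 : γ = 0
  · by_cases h2 : δ = 0
    · rw [if_pos h1, if_pos h2]
    · rw [if_pos h1, if_neg h2]
      have h3 : 0 < δ := lt_of_le_of_ne (by linarith) (Ne.symm h2)
      rw [le_div_iff₀ h3]
      have := hlow δ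
      linarith
  · by_cases h2 : δ = 0
    · rw [if_neg h1, if_pos h2]
      have h3 : γ < 0 := lt_of_le_of_ne (by linarith) h1
      rw [div_le_iff_of_neg h3]
      have := hlow γ
      linarith
    · rw [if_neg h1, if_neg h2]
      have hconv : ConvexOn ℝ Set.univ (fun s : ℝ => Real.exp (s * Real.log t)) := by
        have := convexOn_exp.comp_linearMap (LinearMap.mulRight ℝ (Real.log t))
        simpa [Function.comp_def] using this
      have h3 := hconv.secant_mono (a := 0) (x := γ) (y := δ) (Set.mem_univ _) (Set.mem_univ _)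
        (Set.mem_univ _) h1 h2 h
      simp only [zero_mul, Real.exp_zero, sub_zero] at h3
      rw [hrp, hrp]
      exact h3

/-- the potential as a function of the distance -/
def wr (α β t : ℝ) : ℝ := -pw α t + pw β t

lemma pot_eq {d : ℕ} (α β : ℝ) (x : Esp d) : pot α β x = wr α β ‖x‖ := rfl

lemma wr_eq (α β t : ℝ) : wr α β t = (hh β t - hh α t) + (1 / β - 1 / α) := by
  unfold wr
  rw [pw_eq, pw_eq]
  ring

lemma pw_zero (γ : ℝ) : pw γ 0 = 0 := by
  unfold pw
  by_cases h : γ = 0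
  · simp [h]
  · rw [if_neg h, Real.zero_rpow h, zero_div]

lemma wr_zero (α β : ℝ) : wr α β 0 = 0 := by
  unfold wr
  rw [pw_zero, pw_zero]
  simp

lemma wr_ge {α β : ℝ} (h : α ≤ β) {t : ℝ} (ht : 0 ≤ t) : -(|1 / β - 1 / α| + 1) ≤ wr α β t := by
  rcases ht.eq_or_lt with rfl | ht
  · rw [wr_zero]
    have := abs_nonneg (1 / β - 1 / α)
    linarith
  · rw [wr_eq]
    have h1 := hh_mono ht h
    have h2 := neg_abs_le (1 / β - 1 / α)
    linarith

/-- growth at infinity for `0 ≤ β` -/
lemma wr_top {α β : ℝ} (h : α < β) (hβ : 0 ≤ β) : Tendsto (wr α β) atTop atTop := by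
  rcases hβ.eq_or_lt with rfl | hβ
  · refine tendsto_atTop_mono' _ ?_ Real.tendsto_log_atTop
    filter_upwards [eventually_gt_atTop 0] with t ht
    unfold wr pw
    rw [if_neg h.ne, if_pos rfl]
    have h1 : 0 < t ^ α := Real.rpow_pos_of_pos ht _
    have h2 : t ^ α / α ≤ 0 := div_nonpos_of_nonneg_of_nonpos h1.le h.le
    linarith
  · obtain ⟨α', h1, h2, h3⟩ : ∃ α', α ≤ α' ∧ 0 < α' ∧ α' < β :=
      ⟨max α (β / 2), le_max_left _ _, lt_of_lt_of_le (by linarith) (le_max_right _ _),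
        max_lt h (by linarith)⟩
    have h4 : Tendsto (fun t : ℝ => t ^ α' * (t ^ (β - α') / β - 1 / α')) atTop atTop := by
      refine (tendsto_rpow_atTop h2).atTop_mul_atTop₀ ?_
      refine tendsto_atTop_add_const_right _ _ ?_
      exact (tendsto_rpow_atTop (sub_pos.2 h3)).atTop_div_const hβ
    have h5 := tendsto_atTop_add_const_right atTop (1 / α' - 1 / α) h4
    refine tendsto_atTop_mono' _ ?_ h5
    filter_upwards [eventually_gt_atTop 0] with t ht
    rw [wr_eq]
    have h6 := hh_mono ht h1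
    have h7 : hh β t = (t ^ β - 1) / β := by unfold hh; rw [if_neg hβ.ne']
    have h8 : hh α' t = (t ^ α' - 1) / α' := by unfold hh; rw [if_neg h2.ne']
    have h9 : t ^ β = t ^ α' * t ^ (β - α') := by
      rw [← Real.rpow_add ht]; congr 1; ring
    have h10 : t ^ α' * (t ^ (β - α') / β - 1 / α') = t ^ β / β - t ^ α' / α' := by
      rw [h9]; ring
    rw [h10, h7]
    rw [h8] at h6
    have e1 : (t ^ β - 1) / β = t ^ β / β - 1 / β := by ring
    have e2 : (t ^ α' - 1) / α' = t ^ α' / α' - 1 / α' := by ring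
    rw [e2] at h6
    rw [e1]
    linarith

/-- decay at infinity for `β < 0` -/
lemma wr_neg {α β : ℝ} (h : α < β) (hβ : β < 0) {δ : ℝ} (hδ : 0 < δ) :
    ∀ᶠ t in atTop, -δ ≤ wr α β t := by
  have h1 : Tendsto (fun t : ℝ => t ^ β / β) atTop (𝓝 (0 / β)) := by
    have := tendsto_rpow_neg_atTop (neg_pos.2 hβ)
    rw [neg_neg] at this
    exact this.div_const _
  rw [zero_div] at h1
  have h2 := h1.eventually (lt_mem_nhds (neg_lt_zero.2 hδ))
  filter_upwards [h2, eventually_gt_atTop 0] with t ht ht0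
  unfold wr pw
  rw [if_neg (by linarith), if_neg hβ.ne]
  have h3 : 0 < t ^ α := Real.rpow_pos_of_pos ht0 _
  have h4 : t ^ α / α ≤ 0 := div_nonpos_of_nonneg_of_nonpos h3.le (by linarith)
  linarith

/-- blow up at `0` for `α ≤ 0` -/
lemma wr_sing {α β : ℝ} (h : α < β) (hα : α ≤ 0) : Tendsto (wr α β) (𝓝[>] 0) atTop := by
  rcases hα.eq_or_lt with rfl | hα
  · have h1 : Tendsto (fun t : ℝ => -Real.log t) (𝓝[>] 0) atTop :=
      tendsto_neg_atBot_atTop.comp Real.tendsto_log_nhdsGT_zero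
    refine tendsto_atTop_mono' _ ?_ h1
    filter_upwards [self_mem_nhdsWithin] with t ht
    have ht : 0 < t := ht
    unfold wr pw
    rw [if_pos rfl, if_neg h.ne']
    have h1 : 0 < t ^ β := Real.rpow_pos_of_pos ht _
    have h2 : 0 ≤ t ^ β / β := div_nonneg h1.le h.le
    linarith
  · obtain ⟨β', h1, h2, h3⟩ : ∃ β', β' ≤ β ∧ β' < 0 ∧ α < β' :=
      ⟨min β (α / 2), min_le_left _ _, lt_of_le_of_lt (min_le_right _ _) (by linarith),
        lt_min h (by linarith)⟩
    have h4 : Tendsto (fun t : ℝ => t ^ β' * (t ^ (α - β') / (-α) - 1 / (-β'))) (𝓝[>] 0) atTop := by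
      refine (tendsto_rpow_neg_nhdsGT_zero h2).atTop_mul_atTop₀ ?_
      refine tendsto_atTop_add_const_right _ _ ?_
      exact (tendsto_rpow_neg_nhdsGT_zero (sub_neg.2 h3)).atTop_div_const (neg_pos.2 hα)
    have h5 := tendsto_atTop_add_const_right (𝓝[>] 0) (1 / β - 1 / β') h4
    refine tendsto_atTop_mono' _ ?_ h5
    filter_upwards [self_mem_nhdsWithin] with t ht
    have ht : 0 < t := ht
    rw [wr_eq]
    have h6 := hh_mono ht h1
    have h7 : hh β' t = (t ^ β' - 1) / β' := by unfold hh; rw [if_neg h2.ne]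
    have h8 : hh α t = (t ^ α - 1) / α := by unfold hh; rw [if_neg hα.ne]
    have h9 : t ^ α = t ^ β' * t ^ (α - β') := by
      rw [← Real.rpow_add ht]; congr 1; ring
    have h10 : t ^ β' * (t ^ (α - β') / (-α) - 1 / (-β')) = t ^ β' / β' - t ^ α / α := by
      rw [h9]; field_simp; ring
    rw [h10, h8]
    rw [h7] at h6
    have e1 : (t ^ β' - 1) / β' = t ^ β' / β' - 1 / β' := by ring
    have e2 : (t ^ α - 1) / α = t ^ α / α - 1 / α := by ring
    rw [e1] at h6
    rw [e2]
    linarith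

lemma pw_cont_ne {γ t : ℝ} (ht : t ≠ 0) : ContinuousAt (pw γ) t := by
  by_cases h : γ = 0
  · have : pw γ = Real.log := by funext s; unfold pw; rw [if_pos h]
    rw [this]
    exact Real.continuousAt_log ht
  · have : pw γ = fun s => s ^ γ / γ := by funext s; unfold pw; rw [if_neg h]
    rw [this]
    exact (Real.continuousAt_rpow_const _ _ (Or.inl ht)).div_const _

lemma pw_cont_pos {γ : ℝ} (hγ : 0 < γ) : Continuous (pw γ) := by
  have : pw γ = fun s => s ^ γ / γ := by funext s; unfold pw; rw [if_neg hγ.ne']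
  rw [this]
  exact (Real.continuous_rpow_const hγ.le).div_const _

lemma pw_meas (γ : ℝ) : Measurable (pw γ) := by
  by_cases h : γ = 0
  · have : pw γ = Real.log := by funext s; unfold pw; rw [if_pos h]
    rw [this]
    exact Real.measurable_log
  · have : pw γ = fun s => s ^ γ / γ := by funext s; unfold pw; rw [if_neg h]
    rw [this]
    fun_prop

variable {d : ℕ} {α β : ℝ}

lemma pot_meas : Measurable (pot (d := d) α β) := by
  unfold pot
  exact ((pw_meas α).comp measurable_norm).neg.add ((pw_meas β).comp measurable_norm)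

lemma pot_cont_ne {x : Esp d} (hx : x ≠ 0) : ContinuousAt (pot (d := d) α β) x := by
  unfold pot
  have h1 : ‖x‖ ≠ 0 := norm_ne_zero_iff.2 hx
  exact ((pw_cont_ne h1).comp (f := fun x : Esp d => ‖x‖) continuous_norm.continuousAt).neg.add
    ((pw_cont_ne h1).comp (f := fun x : Esp d => ‖x‖) continuous_norm.continuousAt)

lemma pot_cont_zero (hα : 0 < α) (h : α < β) : ContinuousAt (pot (d := d) α β) 0 := by
  unfold pot
  exact (((pw_cont_pos hα).comp continuous_norm).neg.add
    ((pw_cont_pos (hα.trans h)).comp continuous_norm)).continuousAt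

lemma norm_punct : Tendsto (fun x : Esp d => ‖x‖) (𝓝[≠] 0) (𝓝[>] 0) := by
  refine tendsto_nhdsWithin_iff.2 ⟨?_, ?_⟩
  · have : Tendsto (fun x : Esp d => ‖x‖) (𝓝 0) (𝓝 0) := by
      have := continuous_norm.tendsto (0 : Esp d)
      rwa [norm_zero] at this
    exact this.mono_left nhdsWithin_le_nhds
  · filter_upwards [self_mem_nhdsWithin] with x hx
    exact norm_pos_iff.2 hx

lemma pot_sing (hα : α ≤ 0) (h : α < β) : Tendsto (pot (d := d) α β) (𝓝[≠] 0) atTop :=
  (wr_sing h hα).comp norm_punct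

lemma pot_ge (h : α < β) (x : Esp d) : -(|1 / β - 1 / α| + 1) ≤ pot α β x :=
  wr_ge h.le (norm_nonneg x)

lemma pot_top (h : α < β) (hβ : 0 ≤ β) (T : ℝ) :
    ∃ R : ℝ, 0 ≤ R ∧ ∀ x : Esp d, R < ‖x‖ → T ≤ pot α β x := by
  obtain ⟨R, hR⟩ := eventually_atTop.1 ((wr_top h hβ).eventually_ge_atTop T)
  exact ⟨max R 0, le_max_right _ _, fun x hx => hR _ ((le_max_left _ _).trans hx.le)⟩

lemma pot_neg (h : α < β) (hβ : β < 0) (δ : ℝ) (hδ : 0 < δ) :
    ∃ R : ℝ, 0 ≤ R ∧ ∀ x : Esp d, R < ‖x‖ → -δ ≤ pot α β x := by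
  obtain ⟨R, hR⟩ := eventually_atTop.1 (wr_neg h hβ hδ)
  exact ⟨max R 0, le_max_right _ _, fun x hx => hR _ ((le_max_left _ _).trans hx.le)⟩

end

end Pool.Agent.V1175.BB
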